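import Pool.Agent.Work.MP_b29d7f_ns_helper45.LB

/-!
# Block EQC: equicontinuity and bounds of the potentials
-/

set_option autoImplicit false

open Finset

namespace Pool.NS

namespace EQC_

open Data LB_

/-- the truncated logarithm -/
noncomputable def Lg (M : ℕ) (d : ℝ) : ℝ := Real.log (d ^ 2 + Real.exp (-(M : ℝ)) ^ 2) / 2

lemma Lg_anti {M N : ℕ} (h : M ≤ N) (d : ℝ) : Lg N d ≤ Lg M d := by
  unfold Lg
  apply div_le_div_of_nonneg_right _ (by norm_num)
  apply Real.log_le_log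
  · have := Real.exp_pos (-(N : ℝ)); positivity
  · have h1 : Real.exp (-(N : ℝ)) ≤ Real.exp (-(M : ℝ)) := by
      apply Real.exp_le_exp.2
      have : (M : ℝ) ≤ N := by exact_mod_cast h
      linarith
    have h2 := Real.exp_pos (-(N : ℝ))
    nlinarith

/-- the truncated logarithm is Lipschitz -/
lemma Lg_lip_aux {M : ℕ} {a b : ℝ} (hb : 0 ≤ b) (hab : b ≤ a) :
    Lg M a - Lg M b ≤ Real.exp M * (a - b) := by
  have hε : 0 < Real.exp (-(M : ℝ)) := Real.exp_pos _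
  have hε1 : Real.exp (-(M : ℝ)) * Real.exp M = 1 := by
    rw [← Real.exp_add]; simp
  set ε := Real.exp (-(M : ℝ)) with hεdef
  set T := Real.exp (M : ℝ) with hT
  have hT0 : 0 < T := Real.exp_pos _
  have h1 : a ^ 2 + ε ^ 2 ≤ (b ^ 2 + ε ^ 2) * (1 + T * (a - b)) ^ 2 := by
    obtain ⟨r, hr⟩ : ∃ r, r = a - b := ⟨_, rfl⟩
    have ha : a = b + r := by rw [hr]; ring
    have hr0 : 0 ≤ r := by linarith
    rw [ha]
    have e1 : b + r - b = r := by ring
    rw [e1]
    -- (b²+ε²)(1+2Tr+T²r²) - (b+r)² - ε² = 2Tr(b²+ε²) + T²r²(b²+ε²) - 2br - r²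
    have h2 : 2 * b ≤ 2 * T * (b ^ 2 + ε ^ 2) := by
      -- T (b² + ε²) ≥ 2 T b ε = 2 b
      have h3 : 2 * b * ε ≤ b ^ 2 + ε ^ 2 := by nlinarith [sq_nonneg (b - ε)]
      have h4 : T * (2 * b * ε) ≤ T * (b ^ 2 + ε ^ 2) := mul_le_mul_of_nonneg_left h3 hT0.le
      have h5 : T * (2 * b * ε) = 2 * b := by
        calc T * (2 * b * ε) = 2 * b * (ε * T) := by ring
          _ = 2 * b := by rw [hε1, mul_one]
      nlinarith
    have h3 : 1 ≤ T ^ 2 * (b ^ 2 + ε ^ 2) := by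
      have h4 : T ^ 2 * ε ^ 2 = 1 := by
        calc T ^ 2 * ε ^ 2 = (ε * T) ^ 2 := by ring
          _ = 1 := by rw [hε1, one_pow]
      nlinarith [mul_nonneg (sq_nonneg T) (sq_nonneg b)]
    nlinarith [mul_le_mul_of_nonneg_left h2 hr0, mul_le_mul_of_nonneg_left h3 (sq_nonneg r)]
  have h2 : 0 < b ^ 2 + ε ^ 2 := by positivity
  have h3 : 0 < 1 + T * (a - b) := by
    have := mul_nonneg hT0.le (sub_nonneg.2 hab)
    linarith
  have h4 : Real.log (a ^ 2 + ε ^ 2) ≤ Real.log (b ^ 2 + ε ^ 2) + 2 * Real.log (1 + T * (a - b)) := by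
    have h5 : 0 < a ^ 2 + ε ^ 2 := by positivity
    have h6 := Real.log_le_log h5 h1
    rw [Real.log_mul h2.ne' (by positivity), Real.log_pow] at h6
    push_cast at h6
    exact h6
  have h5 : Real.log (1 + T * (a - b)) ≤ T * (a - b) := by
    have := Real.log_le_sub_one_of_pos h3
    linarith
  unfold Lg
  linarith

lemma Lg_lip {M : ℕ} {a b : ℝ} (ha : 0 ≤ a) (hb : 0 ≤ b) :
    |Lg M a - Lg M b| ≤ Real.exp M * |a - b| := by
  rcases le_total b a with h | h
  · rw [abs_of_nonneg (sub_nonneg.2 h), abs_le]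
    have h1 := Lg_lip_aux (M := M) hb h
    have h2 : Lg M b ≤ Lg M a := by
      unfold Lg
      apply div_le_div_of_nonneg_right _ (by norm_num)
      apply Real.log_le_log
      · have := Real.exp_pos (-(M : ℝ)); positivity
      · nlinarith
    have h3 : 0 ≤ Real.exp M * (a - b) := mul_nonneg (Real.exp_pos _).le (sub_nonneg.2 h)
    constructor <;> linarith
  · rw [abs_of_nonpos (sub_nonpos.2 h), abs_le]
    have h1 := Lg_lip_aux (M := M) ha h
    have h2 : Lg M a ≤ Lg M b := by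
      unfold Lg
      apply div_le_div_of_nonneg_right _ (by norm_num)
      apply Real.log_le_log
      · have := Real.exp_pos (-(M : ℝ)); positivity
      · nlinarith
    have h3 : 0 ≤ Real.exp M * -(a - b) := mul_nonneg (Real.exp_pos _).le (by linarith)
    constructor <;> linarith

/-- far from the singularity the truncation does not matter -/
lemma Lg_far {M N m : ℕ} (hm : 2 * m ≤ M) {d : ℝ} (hd : Real.exp (-(m : ℝ)) < d) :
    Lg M d - Lg N d ≤ Real.exp (-(M : ℝ)) / 2 := by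
  have hd0 : 0 < d := lt_trans (Real.exp_pos _) hd
  have h1 := half_log_ge' (ρ := Real.exp (-(N : ℝ))) hd0
  have h2 : Real.exp (-(M : ℝ)) ^ 2 ≤ Real.exp (-(M : ℝ)) * d ^ 2 := by
    have h3 : Real.exp (-(M : ℝ)) ≤ d ^ 2 := by
      calc Real.exp (-(M : ℝ)) ≤ Real.exp (-(m : ℝ)) ^ 2 := by
            rw [← Real.exp_nat_mul]
            apply Real.exp_le_exp.2
            have : (2 : ℝ) * m ≤ M := by exact_mod_cast hm
            push_cast
            linarith
        _ ≤ d ^ 2 := by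
            apply pow_le_pow_left₀ (Real.exp_pos _).le hd.le
    rw [sq]
    exact mul_le_mul_of_nonneg_left h3 (Real.exp_pos _).le
  have h3 : Real.log (d ^ 2 + Real.exp (-(M : ℝ)) ^ 2)
      ≤ 2 * Real.log d + Real.exp (-(M : ℝ)) := by
    have h4 : d ^ 2 + Real.exp (-(M : ℝ)) ^ 2 ≤ d ^ 2 * (1 + Real.exp (-(M : ℝ))) := by
      nlinarith
    have hpos : 0 < d ^ 2 + Real.exp (-(M : ℝ)) ^ 2 := by positivity
    have hE := Real.exp_pos (-(M : ℝ))
    have h5 := Real.log_le_log hpos h4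
    rw [Real.log_mul (by positivity) (by positivity), Real.log_pow] at h5
    have h6 := Real.log_le_sub_one_of_pos (show 0 < 1 + Real.exp (-(M : ℝ)) by positivity)
    push_cast at h5
    linarith
  unfold Lg
  linarith

/-- near the singularity -/
lemma Lg_near {M N : ℕ} {d : ℝ} (hd : 0 ≤ d) (hd1 : d ≤ 1) :
    Lg M d - Lg N d ≤ 1 + ∑ k ∈ range N, (if d ≤ Real.exp (-(k : ℝ)) then (1 : ℝ) else 0) := by
  have h1 := layer hd N
  have h2 : Lg M d ≤ 1 := by
    unfold Lg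
    have h3 : d ^ 2 + Real.exp (-(M : ℝ)) ^ 2 ≤ 2 := by
      have h4 : Real.exp (-(M : ℝ)) ≤ 1 := by
        rw [Real.exp_le_one_iff]; linarith [Nat.cast_nonneg (α := ℝ) M]
      have h5 := Real.exp_pos (-(M : ℝ))
      nlinarith
    have hpos : 0 < d ^ 2 + Real.exp (-(M : ℝ)) ^ 2 := by
      have := Real.exp_pos (-(M : ℝ)); positivity
    have h6 := Real.log_le_log hpos h3
    have := Real.log_two_lt_d9
    linarith
  unfold Lg at h2 ⊢
  linarith

variable {R : Type} [CommRing R] {P : Data R} (S : Sq P)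

open scoped Classical in
/-- sum over the near elements -/
lemma sum_near (l m N : ℕ) (hm : m ≤ P.Mx (S.A l).card) (hN : N ≤ P.Mx (S.A l).card)
    (v : P.Ω) (ξ : E (P.e v)) :
    ∑ b ∈ (S.A l).filter (fun b => ‖ξ - S.X l b v‖ ≤ Real.exp (-(m : ℝ))),
      (1 + ∑ k ∈ range N, (if ‖ξ - S.X l b v‖ ≤ Real.exp (-(k : ℝ)) then (1 : ℝ) else 0))
      ≤ S.C * (1 + 1 / (1 - Real.exp (-(S.c / 2)))) * Real.exp (-(S.c / 2 * m)) * S.n l := by
  have hc := S.hc
  have hfil : ∀ k : ℕ, k ≤ P.Mx (S.A l).card →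
      (((S.A l).filter (fun b => ‖ξ - S.X l b v‖ ≤ Real.exp (-(k : ℝ)))).card : ℝ)
        ≤ S.C * Real.exp (-(S.c * k)) * S.n l := by
    intro k hk
    have h2 := S.smallX l k hk v ξ
    have h3 : (S.A l).filter (fun b => ‖ξ - S.X l b v‖ ≤ Real.exp (-(k : ℝ)))
        = (S.A l).filter (fun b => ‖S.X l b v - ξ‖ ≤ Real.exp (-(k : ℝ))) := by
      apply Finset.filter_congr
      intro b _
      rw [norm_sub_rev]
    rw [h3]
    exact h2
  have hn := S.n_pos l
  have hCn : 0 ≤ S.C * S.n l := (mul_pos S.hC hn).le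
  rw [Finset.sum_add_distrib]
  have h1 : ∑ b ∈ (S.A l).filter (fun b => ‖ξ - S.X l b v‖ ≤ Real.exp (-(m : ℝ))), (1 : ℝ)
      ≤ S.C * S.n l * Real.exp (-(S.c / 2 * m)) := by
    rw [Finset.sum_const, nsmul_eq_mul, mul_one]
    refine le_trans (hfil m hm) ?_
    have h2 : Real.exp (-(S.c * m)) ≤ Real.exp (-(S.c / 2 * m)) := by
      apply Real.exp_le_exp.2
      have := Nat.cast_nonneg (α := ℝ) m
      nlinarith
    calc S.C * Real.exp (-(S.c * m)) * S.n l = S.C * S.n l * Real.exp (-(S.c * m)) := by ring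
      _ ≤ _ := mul_le_mul_of_nonneg_left h2 hCn
  have h2 : ∑ b ∈ (S.A l).filter (fun b => ‖ξ - S.X l b v‖ ≤ Real.exp (-(m : ℝ))),
      ∑ k ∈ range N, (if ‖ξ - S.X l b v‖ ≤ Real.exp (-(k : ℝ)) then (1 : ℝ) else 0)
      ≤ S.C * S.n l * Real.exp (-(S.c / 2 * m)) * (1 / (1 - Real.exp (-(S.c / 2)))) := by
    rw [Finset.sum_comm]
    have h3 : ∀ k ∈ range N,
        ∑ b ∈ (S.A l).filter (fun b => ‖ξ - S.X l b v‖ ≤ Real.exp (-(m : ℝ))),
          (if ‖ξ - S.X l b v‖ ≤ Real.exp (-(k : ℝ)) then (1 : ℝ) else 0)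
        ≤ S.C * S.n l * Real.exp (-(S.c / 2 * m)) * Real.exp (-(S.c / 2 * k)) := by
      intro k hk
      have hk' : k ≤ P.Mx (S.A l).card := le_trans (Finset.mem_range.1 hk).le hN
      rw [← Finset.sum_filter, Finset.sum_const, nsmul_eq_mul, mul_one, Finset.filter_filter]
      have h4 : (((S.A l).filter (fun b => ‖ξ - S.X l b v‖ ≤ Real.exp (-(m : ℝ)) ∧
          ‖ξ - S.X l b v‖ ≤ Real.exp (-(k : ℝ)))).card : ℝ)
          ≤ S.C * Real.exp (-(S.c * (max m k : ℕ))) * S.n l := by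
        refine le_trans ?_ (hfil (max m k) (max_le hm hk'))
        have : ((S.A l).filter (fun b => ‖ξ - S.X l b v‖ ≤ Real.exp (-(m : ℝ)) ∧
            ‖ξ - S.X l b v‖ ≤ Real.exp (-(k : ℝ)))).card
            ≤ ((S.A l).filter (fun b => ‖ξ - S.X l b v‖ ≤ Real.exp (-((max m k : ℕ) : ℝ)))).card := by
          apply Finset.card_le_card
          intro b hb
          rw [Finset.mem_filter] at hb ⊢
          refine ⟨hb.1, ?_⟩
          rcases max_cases m k with h | h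
          · rw [h.1]; exact hb.2.1
          · rw [h.1]; exact hb.2.2
        exact_mod_cast this
      have h5 : Real.exp (-(S.c * (max m k : ℕ)))
          ≤ Real.exp (-(S.c / 2 * m)) * Real.exp (-(S.c / 2 * k)) := by
        rw [← Real.exp_add]
        apply Real.exp_le_exp.2
        have h6 : (m : ℝ) ≤ ((max m k : ℕ) : ℝ) := by exact_mod_cast le_max_left m k
        have h7 : (k : ℝ) ≤ ((max m k : ℕ) : ℝ) := by exact_mod_cast le_max_right m k
        nlinarith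
      calc _ ≤ S.C * Real.exp (-(S.c * (max m k : ℕ))) * S.n l := h4
        _ = S.C * S.n l * Real.exp (-(S.c * (max m k : ℕ))) := by ring
        _ ≤ S.C * S.n l * (Real.exp (-(S.c / 2 * m)) * Real.exp (-(S.c / 2 * k))) :=
            mul_le_mul_of_nonneg_left h5 hCn
        _ = _ := by ring
    refine le_trans (Finset.sum_le_sum h3) ?_
    rw [← Finset.mul_sum]
    apply mul_le_mul_of_nonneg_left (geom (by linarith) N)
    exact mul_nonneg hCn (Real.exp_pos _).le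
  calc _ ≤ S.C * S.n l * Real.exp (-(S.c / 2 * m))
      + S.C * S.n l * Real.exp (-(S.c / 2 * m)) * (1 / (1 - Real.exp (-(S.c / 2)))) :=
        add_le_add h1 h2
    _ = _ := by ring

/-- the difference of two truncations -/
lemma avg_diff : ∃ C : ℝ, 0 ≤ C ∧ ∀ (l M N : ℕ), M ≤ N → N ≤ P.Mx (S.A l).card →
    ∀ (v : P.Ω) (ξ : E (P.e v)),
    0 ≤ (S.n l)⁻¹ * ∑ b ∈ S.A l, Lg M ‖ξ - S.X l b v‖
      - (S.n l)⁻¹ * ∑ b ∈ S.A l, Lg N ‖ξ - S.X l b v‖ ∧
    (S.n l)⁻¹ * ∑ b ∈ S.A l, Lg M ‖ξ - S.X l b v‖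
      - (S.n l)⁻¹ * ∑ b ∈ S.A l, Lg N ‖ξ - S.X l b v‖
      ≤ C * Real.exp (-(min (S.c / 4) 1 * M)) := by
  classical
  have hc := S.hc
  have he1 : 0 < 1 - Real.exp (-(S.c / 2)) := by
    have : Real.exp (-(S.c / 2)) < 1 := by
      rw [Real.exp_lt_one_iff]; linarith
    linarith
  obtain ⟨D, hD⟩ : ∃ D, D = S.C * (1 + 1 / (1 - Real.exp (-(S.c / 2)))) := ⟨_, rfl⟩
  have hD0 : 0 ≤ D := by
    rw [hD]; exact mul_nonneg S.hC.le (by positivity)
  refine ⟨1 + D * Real.exp (S.c / 4), by positivity, ?_⟩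
  intro l M N hMN hN v ξ
  have hn := S.n_pos l
  rw [← mul_sub, ← Finset.sum_sub_distrib]
  refine ⟨?_, ?_⟩
  · apply mul_nonneg (inv_nonneg.2 hn.le)
    exact Finset.sum_nonneg fun b _ => sub_nonneg.2 (Lg_anti hMN _)
  · have hm : 2 * (M / 2) ≤ M := Nat.mul_div_le M 2
    have h1 : ∀ b ∈ S.A l, Lg M ‖ξ - S.X l b v‖ - Lg N ‖ξ - S.X l b v‖
        ≤ Real.exp (-(M : ℝ)) / 2
          + (if ‖ξ - S.X l b v‖ ≤ Real.exp (-((M / 2 : ℕ) : ℝ)) then
            (1 + ∑ k ∈ range N, (if ‖ξ - S.X l b v‖ ≤ Real.exp (-(k : ℝ)) then (1 : ℝ) else 0))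
            else 0) := by
      intro b _
      by_cases hb : ‖ξ - S.X l b v‖ ≤ Real.exp (-((M / 2 : ℕ) : ℝ))
      · rw [if_pos hb]
        have h2 : ‖ξ - S.X l b v‖ ≤ 1 := by
          refine le_trans hb ?_
          rw [Real.exp_le_one_iff]
          linarith [Nat.cast_nonneg (α := ℝ) (M / 2)]
        have h3 := Lg_near (M := M) (N := N) (norm_nonneg (ξ - S.X l b v)) h2
        have := Real.exp_pos (-(M : ℝ))
        linarith
      · rw [if_neg hb, add_zero]
        exact Lg_far hm (not_le.1 hb)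
    have h2 := Finset.sum_le_sum h1
    rw [Finset.sum_add_distrib, Finset.sum_const, nsmul_eq_mul, ← Finset.sum_filter] at h2
    have h3 := sum_near S l (M / 2) N (le_trans (Nat.div_le_self M 2) (le_trans hMN hN)) hN v ξ
    rw [← hD] at h3
    rw [inv_mul_eq_div, div_le_iff₀ hn]
    have hM2 : (M : ℝ) / 2 - 1 / 2 ≤ ((M / 2 : ℕ) : ℝ) := by
      have h4 : M ≤ 2 * (M / 2) + 1 := by omega
      have h5 : (M : ℝ) ≤ 2 * ((M / 2 : ℕ) : ℝ) + 1 := by exact_mod_cast h4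
      linarith
    have hM0 : (0 : ℝ) ≤ M := Nat.cast_nonneg _
    have h4 : Real.exp (-(S.c / 2 * ((M / 2 : ℕ) : ℝ)))
        ≤ Real.exp (S.c / 4) * Real.exp (-(min (S.c / 4) 1 * M)) := by
      rw [← Real.exp_add]
      apply Real.exp_le_exp.2
      have h5 : min (S.c / 4) 1 * M ≤ S.c / 4 * M :=
        mul_le_mul_of_nonneg_right (min_le_left _ _) hM0
      nlinarith
    have h5 : Real.exp (-(M : ℝ)) / 2 ≤ Real.exp (-(min (S.c / 4) 1 * M)) := by
      have h6 : Real.exp (-(M : ℝ)) ≤ Real.exp (-(min (S.c / 4) 1 * M)) := by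
        apply Real.exp_le_exp.2
        have : min (S.c / 4) 1 * M ≤ 1 * M := mul_le_mul_of_nonneg_right (min_le_right _ _) hM0
        linarith
      have := Real.exp_pos (-(M : ℝ))
      linarith
    have h6 : ((S.A l).card : ℝ) = S.n l := rfl
    rw [h6] at h2
    have h7 := mul_le_mul_of_nonneg_left h5 hn.le
    have h8 : D * Real.exp (-(S.c / 2 * ((M / 2 : ℕ) : ℝ))) * S.n l
        ≤ D * (Real.exp (S.c / 4) * Real.exp (-(min (S.c / 4) 1 * M))) * S.n l := by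
      apply mul_le_mul_of_nonneg_right _ hn.le
      exact mul_le_mul_of_nonneg_left h4 hD0
    have h9 : (1 + D * Real.exp (S.c / 4)) * Real.exp (-(min (S.c / 4) 1 * M)) * S.n l
        = S.n l * Real.exp (-(min (S.c / 4) 1 * M))
          + D * (Real.exp (S.c / 4) * Real.exp (-(min (S.c / 4) 1 * M))) * S.n l := by ring
    rw [h9]
    linarith

/-- Lipschitz estimate for a fixed truncation -/
lemma avg_lip (l M : ℕ) (v : P.Ω) (ξ ξ' : E (P.e v)) :
    |(S.n l)⁻¹ * ∑ b ∈ S.A l, Lg M ‖ξ - S.X l b v‖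
      - (S.n l)⁻¹ * ∑ b ∈ S.A l, Lg M ‖ξ' - S.X l b v‖| ≤ Real.exp M * ‖ξ - ξ'‖ := by
  have hn := S.n_pos l
  rw [← mul_sub, ← Finset.sum_sub_distrib, abs_mul, abs_of_pos (inv_pos.2 hn), inv_mul_eq_div,
    div_le_iff₀ hn]
  refine le_trans (Finset.abs_sum_le_sum_abs _ _) ?_
  have h1 : ∀ b ∈ S.A l, |Lg M ‖ξ - S.X l b v‖ - Lg M ‖ξ' - S.X l b v‖|
      ≤ Real.exp M * ‖ξ - ξ'‖ := by
    intro b _
    refine le_trans (Lg_lip (norm_nonneg _) (norm_nonneg _)) ?_
    apply mul_le_mul_of_nonneg_left _ (Real.exp_pos _).le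
    have h2 := abs_norm_sub_norm_le (ξ - S.X l b v) (ξ' - S.X l b v)
    rwa [sub_sub_sub_cancel_right] at h2
  refine le_trans (Finset.sum_le_sum h1) ?_
  rw [Finset.sum_const, nsmul_eq_mul]
  have h6 : ((S.A l).card : ℝ) = S.n l := rfl
  rw [h6, mul_comm]

end EQC_

open Data EQC_ in
theorem stmt_EQC : Stmt_EQC := by
  intro R _ P S
  obtain ⟨C, hC0, hC⟩ := avg_diff S
  have hc := S.hc
  obtain ⟨c', hc'⟩ : ∃ c', c' = min (S.c / 4) 1 := ⟨_, rfl⟩
  have hc'0 : 0 < c' := by rw [hc']; exact lt_min (by linarith) one_pos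
  have hc'1 : c' ≤ 1 := by rw [hc']; exact min_le_right _ _
  rw [← hc'] at hC
  refine ⟨4 * C * Real.exp c' + 2 + 2 * C, c' / 2, by positivity, by linarith, ?_⟩
  intro l M hM v ξ ξ' hξ
  have he := S.geo.e_le v
  have he0 : (0 : ℝ) ≤ P.e v := Nat.cast_nonneg _
  have hpV : ∀ η : E (P.e v), S.pV l v η
      = (P.e v : ℝ) * ((S.n l)⁻¹ * ∑ b ∈ S.A l, Lg (P.Mx (S.A l).card) ‖η - S.X l b v‖) :=
    fun _ => rfl
  obtain ⟨Mx, hMx⟩ : ∃ Mx, Mx = P.Mx (S.A l).card := ⟨_, rfl⟩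
  have hexpc : 1 ≤ Real.exp c' := Real.one_le_exp hc'0.le
  refine ⟨?_, ?_⟩
  · -- equicontinuity
    rw [← hMx]
    rcases eq_or_lt_of_le (norm_nonneg (ξ - ξ')) with h0 | h0
    · have h1 : ξ = ξ' := sub_eq_zero.1 (norm_eq_zero.1 h0.symm)
      rw [h1, sub_self, abs_zero]
      have := Real.rpow_nonneg (norm_nonneg (ξ' - ξ')) (c' / 2)
      positivity
    · obtain ⟨δ, hδ⟩ : ∃ δ, δ = ‖ξ - ξ'‖ := ⟨_, rfl⟩
      rw [← hδ] at h0 hξ ⊢
      have hlog : Real.log δ ≤ 0 := Real.log_nonpos h0.le hξ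
      obtain ⟨N, hN⟩ : ∃ N, N = min Mx ⌊-Real.log δ / 2⌋₊ := ⟨_, rfl⟩
      have hNx : N ≤ Mx := by rw [hN]; exact min_le_left _ _
      have hN1 : (N : ℝ) ≤ -Real.log δ / 2 := by
        have h1 : (⌊-Real.log δ / 2⌋₊ : ℝ) ≤ -Real.log δ / 2 := Nat.floor_le (by linarith)
        have h2 : (N : ℝ) ≤ (⌊-Real.log δ / 2⌋₊ : ℝ) := by
          rw [hN]; exact_mod_cast min_le_right _ _
        linarith
      -- the Lipschitz term
      have hlip : Real.exp N * δ ≤ δ ^ (c' / 2) := by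
        have h1 : Real.exp N * δ = Real.exp (N + Real.log δ) := by
          rw [Real.exp_add, Real.exp_log h0]
        have h2 : δ ^ (c' / 2) = Real.exp (Real.log δ * (c' / 2)) := Real.rpow_def_of_pos h0 _
        rw [h1, h2]
        apply Real.exp_le_exp.2
        nlinarith
      -- the truncation term
      have htr : Real.exp (-(c' * N)) ≤ Real.exp c' * (δ ^ (c' / 2) + Real.exp (-(c' / 2 * Mx))) := by
        have hpw : 0 < δ ^ (c' / 2) := Real.rpow_pos_of_pos h0 _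
        have hex : 0 < Real.exp (-(c' / 2 * Mx)) := Real.exp_pos _
        rcases min_cases Mx ⌊-Real.log δ / 2⌋₊ with h | h
        · rw [hN, h.1]
          have h1 : Real.exp (-(c' * Mx)) ≤ Real.exp (-(c' / 2 * Mx)) := by
            apply Real.exp_le_exp.2
            have := Nat.cast_nonneg (α := ℝ) Mx
            nlinarith
          nlinarith
        · rw [hN, h.1]
          have h1 : -Real.log δ / 2 - 1 ≤ (⌊-Real.log δ / 2⌋₊ : ℝ) := by
            have := Nat.lt_floor_add_one (-Real.log δ / 2)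
            linarith
          have h2 : Real.exp (-(c' * (⌊-Real.log δ / 2⌋₊ : ℝ))) ≤ Real.exp c' * δ ^ (c' / 2) := by
            rw [Real.rpow_def_of_pos h0, ← Real.exp_add]
            apply Real.exp_le_exp.2
            nlinarith
          nlinarith
      have hA := hC l N Mx hNx (le_of_eq hMx) v ξ
      have hB := hC l N Mx hNx (le_of_eq hMx) v ξ'
      have hL := avg_lip S l N v ξ ξ'
      rw [← hδ] at hL
      rw [hpV, hpV, ← hMx, ← mul_sub, abs_mul, abs_of_nonneg he0]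
      have h1 : |(S.n l)⁻¹ * ∑ b ∈ S.A l, Lg Mx ‖ξ - S.X l b v‖
          - (S.n l)⁻¹ * ∑ b ∈ S.A l, Lg Mx ‖ξ' - S.X l b v‖|
          ≤ Real.exp N * δ + 2 * (C * Real.exp (-(c' * N))) := by
        rw [abs_le] at hL ⊢
        constructor <;> linarith [hL.1, hL.2, hA.1, hA.2, hB.1, hB.2]
      have hpw : 0 < δ ^ (c' / 2) := Real.rpow_pos_of_pos h0 _
      have hex : 0 < Real.exp (-(c' / 2 * Mx)) := Real.exp_pos _
      have h2 : Real.exp N * δ + 2 * (C * Real.exp (-(c' * N)))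
          ≤ (1 + 2 * C * Real.exp c') * (δ ^ (c' / 2) + Real.exp (-(c' / 2 * Mx))) := by
        have h3 := mul_le_mul_of_nonneg_left htr hC0
        nlinarith
      calc _ ≤ 2 * ((1 + 2 * C * Real.exp c') * (δ ^ (c' / 2) + Real.exp (-(c' / 2 * Mx)))) := by
            apply mul_le_mul he (h1.trans h2) (abs_nonneg _) (by norm_num)
        _ ≤ _ := by
            have h3 : 0 ≤ C * (δ ^ (c' / 2) + Real.exp (-(c' / 2 * Mx))) := by positivity
            nlinarith
  · -- truncation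
    have hA := hC l M (P.Mx (S.A l).card) hM le_rfl v ξ
    have h1 : |S.pV l v ξ - (P.e v : ℝ) * ((S.n l)⁻¹ * ∑ b ∈ S.A l,
        Real.log (‖ξ - S.X l b v‖ ^ 2 + Real.exp (-(M : ℝ)) ^ 2) / 2)|
        = (P.e v : ℝ) * |(S.n l)⁻¹ * ∑ b ∈ S.A l, Lg (P.Mx (S.A l).card) ‖ξ - S.X l b v‖
          - (S.n l)⁻¹ * ∑ b ∈ S.A l, Lg M ‖ξ - S.X l b v‖| := by
      rw [hpV]
      unfold Lg
      rw [← mul_sub, abs_mul, abs_of_nonneg he0]
    rw [h1]
    have h2 : |(S.n l)⁻¹ * ∑ b ∈ S.A l, Lg (P.Mx (S.A l).card) ‖ξ - S.X l b v‖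
          - (S.n l)⁻¹ * ∑ b ∈ S.A l, Lg M ‖ξ - S.X l b v‖| ≤ C * Real.exp (-(c' * M)) := by
      rw [abs_le]; constructor <;> linarith [hA.1, hA.2]
    have h3 : Real.exp (-(c' * M)) ≤ Real.exp (-(c' / 2 * M)) := by
      apply Real.exp_le_exp.2
      have := Nat.cast_nonneg (α := ℝ) M
      nlinarith
    have h4 : 0 < Real.exp (-(c' / 2 * M)) := Real.exp_pos _
    calc _ ≤ 2 * (C * Real.exp (-(c' * M))) := mul_le_mul he h2 (abs_nonneg _) (by norm_num)
      _ ≤ 2 * (C * Real.exp (-(c' / 2 * M))) := by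
          have := mul_le_mul_of_nonneg_left h3 hC0
          linarith
      _ ≤ _ := by
          have h5 : 0 ≤ C * Real.exp c' := by positivity
          nlinarith

end Pool.NS
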