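import Pool.Agent.Work.MP_b29d7f_ns.Interface3

/-!
# Block LB: lower bounds for potentials, for all truncations
-/

set_option autoImplicit false

open Finset

namespace Pool.NS

namespace LB_

open Data

/-- counting lemma, real form -/
lemma count_real (a : ℝ) (M : ℕ) :
    min a M ≤ ∑ k ∈ range M, (if (k : ℝ) ≤ a then (1 : ℝ) else 0) := by
  induction M with
  | zero => simp
  | succ M ih =>
    rw [Finset.sum_range_succ]
    by_cases h : (M : ℝ) ≤ a
    · rw [if_pos h]
      rw [min_eq_right h] at ih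
      have : min a ((M + 1 : ℕ) : ℝ) ≤ (M : ℝ) + 1 := by
        refine le_trans (min_le_right _ _) ?_
        push_cast; exact le_rfl
      linarith
    · rw [if_neg h]
      rw [min_eq_left (le_of_lt (not_le.1 h))] at ih
      have : min a ((M + 1 : ℕ) : ℝ) ≤ a := min_le_left _ _
      linarith

/-- layer cake for the truncated logarithm -/
lemma layer {d : ℝ} (hd : 0 ≤ d) (M : ℕ) :
    -(∑ k ∈ range M, (if d ≤ Real.exp (-(k : ℝ)) then (1 : ℝ) else 0))
      ≤ Real.log (d ^ 2 + Real.exp (-(M : ℝ)) ^ 2) / 2 := by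
  have hlow : -(M : ℝ) ≤ Real.log (d ^ 2 + Real.exp (-(M : ℝ)) ^ 2) / 2 := by
    have := half_log_ge (r := d) (Real.exp_pos (-(M : ℝ)))
    rwa [Real.log_exp] at this
  rcases eq_or_lt_of_le hd with h0 | h0
  · have h1 : ∑ k ∈ range M, (if d ≤ Real.exp (-(k : ℝ)) then (1 : ℝ) else 0) = M := by
      rw [Finset.sum_congr rfl (g := fun _ => (1 : ℝ))]
      · simp
      · intro k _
        rw [if_pos]
        rw [← h0]; exact (Real.exp_pos _).le
    rw [h1]; exact hlow
  · have h1 := half_log_ge' (ρ := Real.exp (-(M : ℝ))) h0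
    have h2 := count_real (-Real.log d) M
    have h3 : ∀ k ∈ range M, (if (k : ℝ) ≤ -Real.log d then (1 : ℝ) else 0)
        = (if d ≤ Real.exp (-(k : ℝ)) then (1 : ℝ) else 0) := by
      intro k _
      have : (k : ℝ) ≤ -Real.log d ↔ d ≤ Real.exp (-(k : ℝ)) := by
        rw [← Real.log_le_iff_le_exp h0]
        constructor <;> intro h <;> linarith
      by_cases hk : d ≤ Real.exp (-(k : ℝ))
      · rw [if_pos hk, if_pos (this.2 hk)]
      · rw [if_neg hk, if_neg (fun h => hk (this.1 h))]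
    rw [Finset.sum_congr rfl h3] at h2
    rcases le_total (-Real.log d) (M : ℝ) with h4 | h4
    · rw [min_eq_left h4] at h2; linarith
    · rw [min_eq_right h4] at h2; linarith

/-- geometric series -/
lemma geom {c : ℝ} (hc : 0 < c) (M : ℕ) :
    ∑ k ∈ range M, Real.exp (-(c * k)) ≤ 1 / (1 - Real.exp (-c)) := by
  have h0 : 0 < Real.exp (-c) := Real.exp_pos _
  have h1 : Real.exp (-c) < 1 := by
    rw [Real.exp_lt_one_iff]; linarith
  have h2 : ∀ k ∈ range M, Real.exp (-(c * k)) = Real.exp (-c) ^ k := by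
    intro k _
    rw [← Real.exp_nat_mul]; congr 1; ring
  rw [Finset.sum_congr rfl h2, geom_sum_eq h1.ne]
  have h3 : 0 < 1 - Real.exp (-c) := by linarith
  have h4 : (Real.exp (-c) ^ M - 1) / (Real.exp (-c) - 1)
      = (1 - Real.exp (-c) ^ M) / (1 - Real.exp (-c)) := by
    rw [← neg_sub 1 (Real.exp (-c) ^ M), ← neg_sub 1 (Real.exp (-c)), neg_div_neg_eq]
  rw [h4]
  apply div_le_div_of_nonneg_right _ h3.le
  have : 0 < Real.exp (-c) ^ M := pow_pos h0 M
  linarith

variable {R : Type} [CommRing R] {P : Data R} (S : Sq P)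

/-- the total number of layers at an infinite place -/
lemma sum_layer (l M : ℕ) (hM : M ≤ P.Mx (S.A l).card) (v : P.Ω) (ξ : E (P.e v)) :
    ∑ b ∈ S.A l, ∑ k ∈ range M, (if ‖ξ - S.X l b v‖ ≤ Real.exp (-(k : ℝ)) then (1 : ℝ) else 0)
      ≤ S.C * (1 / (1 - Real.exp (-S.c))) * S.n l := by
  classical
  rw [Finset.sum_comm]
  have h1 : ∀ k ∈ range M, ∑ b ∈ S.A l,
      (if ‖ξ - S.X l b v‖ ≤ Real.exp (-(k : ℝ)) then (1 : ℝ) else 0)
        ≤ S.C * S.n l * Real.exp (-(S.c * k)) := by
    intro k hk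
    rw [← Finset.sum_filter, Finset.sum_const, nsmul_eq_mul, mul_one]
    have h2 := S.smallX l k (le_trans (Finset.mem_range.1 hk).le hM) v ξ
    have h3 : (S.A l).filter (fun b => ‖ξ - S.X l b v‖ ≤ Real.exp (-(k : ℝ)))
        = (S.A l).filter (fun b => ‖S.X l b v - ξ‖ ≤ Real.exp (-(k : ℝ))) := by
      apply Finset.filter_congr
      intro b _
      rw [norm_sub_rev]
    rw [h3]
    calc _ ≤ S.C * Real.exp (-(S.c * k)) * S.n l := h2
      _ = S.C * S.n l * Real.exp (-(S.c * k)) := by ring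
  refine le_trans (Finset.sum_le_sum h1) ?_
  rw [← Finset.mul_sum]
  have h4 := geom S.hc M
  have h5 : 0 ≤ S.C * S.n l := (mul_pos S.hC (S.n_pos l)).le
  calc _ ≤ S.C * S.n l * (1 / (1 - Real.exp (-S.c))) := mul_le_mul_of_nonneg_left h4 h5
    _ = _ := by ring

open scoped Classical in
/-- the total number of layers at a finite place -/
lemma sum_layerT (l M : ℕ) (hM : M ≤ P.Mx (S.A l).card) (t : P.T) (x : R) :
    ∑ b ∈ S.A l, ∑ k ∈ range M,
        (if P.NearT t (S.j l t - ((k + 1 : ℕ) : ℤ)) x b then (1 : ℝ) else 0)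
      ≤ S.C * (1 / (1 - Real.exp (-S.c))) * S.n l := by
  rw [Finset.sum_comm]
  have h1 : ∀ k ∈ range M, ∑ b ∈ S.A l,
      (if P.NearT t (S.j l t - ((k + 1 : ℕ) : ℤ)) x b then (1 : ℝ) else 0)
        ≤ S.C * S.n l * Real.exp (-(S.c * k)) := by
    intro k hk
    rw [← Finset.sum_filter, Finset.sum_const, nsmul_eq_mul, mul_one]
    have h2 := (S.frame l).smallT (k + 1) (le_trans (Finset.mem_range.1 hk) hM) t x
    have h3 : (S.A l).filter (fun b => P.NearT t (S.j l t - ((k + 1 : ℕ) : ℤ)) x b)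
        = (S.A l).filter (fun b => P.NearT t (S.j l t - ((k + 1 : ℕ) : ℤ)) b x) := by
      apply Finset.filter_congr
      intro b _
      exact ⟨S.geo.nearT_symm, S.geo.nearT_symm⟩
    rw [h3]
    have h4 : Real.exp (-(S.c * ((k + 1 : ℕ) : ℝ))) ≤ Real.exp (-(S.c * k)) := by
      apply Real.exp_le_exp.2
      have := S.hc
      push_cast
      nlinarith
    have h5 : 0 ≤ S.C * S.n l := (mul_pos S.hC (S.n_pos l)).le
    calc _ ≤ S.C * Real.exp (-(S.c * ((k + 1 : ℕ) : ℝ))) * S.n l := h2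
      _ = S.C * S.n l * Real.exp (-(S.c * ((k + 1 : ℕ) : ℝ))) := by ring
      _ ≤ S.C * S.n l * Real.exp (-(S.c * k)) := mul_le_mul_of_nonneg_left h4 h5
  refine le_trans (Finset.sum_le_sum h1) ?_
  rw [← Finset.mul_sum]
  have h4 := geom S.hc M
  have h5 : 0 ≤ S.C * S.n l := (mul_pos S.hC (S.n_pos l)).le
  calc _ ≤ S.C * S.n l * (1 / (1 - Real.exp (-S.c))) := mul_le_mul_of_nonneg_left h4 h5
    _ = _ := by ring

/-- counting lemma, integral form -/
lemma count_int (a : ℤ) (M : ℕ) :
    ((min a M : ℤ) : ℝ) ≤ ∑ k ∈ range M, (if ((k + 1 : ℕ) : ℤ) ≤ a then (1 : ℝ) else 0) := by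
  induction M with
  | zero =>
    simp only [Nat.cast_zero, Finset.range_zero, Finset.sum_empty]
    exact_mod_cast min_le_right a 0
  | succ M ih =>
    rw [Finset.sum_range_succ]
    by_cases h : ((M + 1 : ℕ) : ℤ) ≤ a
    · rw [if_pos h]
      have h1 : (M : ℤ) ≤ a := by push_cast at h; linarith
      rw [min_eq_right h1] at ih
      have h2 : ((min a ((M + 1 : ℕ) : ℤ) : ℤ) : ℝ) ≤ (M : ℝ) + 1 := by
        have : min a ((M + 1 : ℕ) : ℤ) ≤ (M : ℤ) + 1 := by
          refine le_trans (min_le_right _ _) ?_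
          push_cast; exact le_rfl
        exact_mod_cast this
      rw [Int.cast_natCast] at ih
      linarith
    · rw [if_neg h]
      have h1 : a ≤ (M : ℤ) := by push_cast at h; linarith
      rw [min_eq_left h1] at ih
      have h2 : ((min a ((M + 1 : ℕ) : ℤ) : ℤ) : ℝ) ≤ (a : ℝ) := by
        exact_mod_cast min_le_left _ _
      linarith

open scoped Classical in
/-- layer cake for the truncated level -/
lemma layerT (t : P.T) (j : ℤ) (M : ℕ) (x b : R) :
    -(∑ k ∈ range M, (if P.NearT t (j - ((k + 1 : ℕ) : ℤ)) x b then (1 : ℝ) else 0))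
      ≤ ((P.cap t (j - M) (x - b) - j : ℤ) : ℝ) := by
  have h1 : ∀ k ∈ range M, (if P.NearT t (j - ((k + 1 : ℕ) : ℤ)) x b then (1 : ℝ) else 0)
      = (if ((k + 1 : ℕ) : ℤ) ≤ j - P.cap t (j - M) (x - b) then (1 : ℝ) else 0) := by
    intro k hk
    have hk' : ((k + 1 : ℕ) : ℤ) ≤ (M : ℤ) := by exact_mod_cast Finset.mem_range.1 hk
    have h2 : P.NearT t (j - ((k + 1 : ℕ) : ℤ)) x b
        ↔ ((k + 1 : ℕ) : ℤ) ≤ j - P.cap t (j - M) (x - b) := by
      rw [nearT_iff_cap (m := j - M) (by linarith)]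
      constructor <;> intro h <;> linarith
    by_cases h : P.NearT t (j - ((k + 1 : ℕ) : ℤ)) x b
    · rw [if_pos h, if_pos (h2.1 h)]
    · rw [if_neg h, if_neg (fun h' => h (h2.2 h'))]
  rw [Finset.sum_congr rfl h1]
  have h3 := count_int (j - P.cap t (j - M) (x - b)) M
  have h4 := P.le_cap t (j - M) (x - b)
  rw [min_eq_left (by linarith)] at h3
  push_cast at h3 ⊢
  linarith

end LB_

namespace LB_

open Data

/-- averages of a function with a layer bound, which is large on most of the set -/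
lemma avg_bound {ι : Type} [DecidableEq ι] {A A₀ : Finset ι} {n g C' : ℝ} {F Ly : ι → ℝ}
    (hn : 0 < n) (hA₀ : A₀ ⊆ A) (hcard : (3 / 4 : ℝ) * n ≤ A₀.card) (hg : 0 ≤ g)
    (hLy : ∀ b ∈ A, 0 ≤ Ly b) (hF : ∀ b ∈ A, -Ly b ≤ F b) (hsum : ∑ b ∈ A, Ly b ≤ C' * n)
    (hb : 0 < g → ∀ b ∈ A₀, g ≤ F b) :
    3 / 4 * g - C' ≤ n⁻¹ * ∑ b ∈ A, F b := by
  have h1 : ∀ b ∈ A, (if b ∈ A₀ then g else 0) - Ly b ≤ F b := by
    intro b hbA'
    have h3 := hLy b hbA'
    have h4 := hF b hbA'
    by_cases hbA : b ∈ A₀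
    · rw [if_pos hbA]
      rcases eq_or_lt_of_le hg with h0 | h0
      · linarith
      · have h2 := hb h0 b hbA
        linarith
    · rw [if_neg hbA]
      linarith
  have h2 := Finset.sum_le_sum h1
  rw [Finset.sum_sub_distrib] at h2
  have h3 : ∑ b ∈ A, (if b ∈ A₀ then g else 0) = A₀.card * g := by
    rw [Finset.sum_ite_mem, Finset.inter_eq_right.2 hA₀, Finset.sum_const, nsmul_eq_mul]
  rw [h3] at h2
  have h4 : 3 / 4 * n * g ≤ A₀.card * g := mul_le_mul_of_nonneg_right hcard hg
  rw [inv_mul_eq_div, le_div_iff₀ hn]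
  have h5 : (3 / 4 * g - C') * n = 3 / 4 * n * g - C' * n := by ring
  rw [h5]
  linarith

end LB_

open Data LB_ in
theorem stmt_LB : Stmt_LB := by
  classical
  intro R _ P S
  have he1 : 0 < 1 - Real.exp (-S.c) := by
    have : Real.exp (-S.c) < 1 := by
      rw [Real.exp_lt_one_iff]; linarith [S.hc]
    linarith
  have hC'0 : ∃ C' : ℝ, C' = S.C * (1 / (1 - Real.exp (-S.c))) := ⟨_, rfl⟩
  obtain ⟨C', hC'⟩ := hC'0
  have hC'nn : 0 ≤ C' := by
    rw [hC']; exact mul_nonneg S.hC.le (by positivity)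
  have hK : (0 : ℝ) ≤ S.K := Nat.cast_nonneg _
  refine ⟨C' + S.K + 1, by linarith, ?_⟩
  intro l M hM
  obtain ⟨A₀, hA₀, hcard, hmain⟩ := (S.frame l).main
  have hn := S.n_pos l
  have hcard' : (3 / 4 : ℝ) * S.n l ≤ A₀.card := hcard
  have hlog2 : Real.log 2 < 1 := by
    have := Real.log_two_lt_d9
    linarith
  have hlog2' : 0 < Real.log 2 := Real.log_pos (by norm_num)
  have hLyT : ∀ (t : P.T) (x b : R), 0 ≤ ∑ k ∈ range M,
      (if P.NearT t (S.j l t - ((k + 1 : ℕ) : ℤ)) x b then (1 : ℝ) else 0) :=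
    fun t x b => Finset.sum_nonneg fun k _ => by split_ifs <;> norm_num
  refine ⟨?_, ?_, ?_⟩
  · intro v ξ
    have hL := sum_layer S l M hM v ξ
    rw [← hC'] at hL
    have hLy : ∀ b ∈ S.A l, 0 ≤ ∑ k ∈ range M,
        (if ‖ξ - S.X l b v‖ ≤ Real.exp (-(k : ℝ)) then (1 : ℝ) else 0) :=
      fun b _ => Finset.sum_nonneg fun k _ => by split_ifs <;> norm_num
    by_cases hξ : 2 * Real.exp S.K ≤ ‖ξ‖
    · have hexpK : 1 ≤ Real.exp (S.K : ℝ) := Real.one_le_exp hK
      have hξ2 : 2 ≤ ‖ξ‖ := by linarith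
      have hξ0 : 0 < ‖ξ‖ := by linarith
      have hpos : Real.posLog ‖ξ‖ = Real.log ‖ξ‖ := by
        apply Real.posLog_eq_log
        rw [abs_of_pos hξ0]; linarith
      have h1 := avg_bound (g := Real.log ‖ξ‖ - Real.log 2) hn hA₀ hcard' (by
        have : Real.log 2 ≤ Real.log ‖ξ‖ := Real.log_le_log (by norm_num) hξ2
        linarith) hLy (fun b _ => layer (norm_nonneg (ξ - S.X l b v)) M) hL (by
        intro _ b hb
        have h2 := (hmain b hb).1 v
        have h3 : ‖S.X l b v‖ ≤ Real.exp S.K := by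
          rw [S.norm_X, div_le_iff₀ (S.s_pos l v)]
          exact h2
        have h4 : ‖ξ‖ / 2 ≤ ‖ξ - S.X l b v‖ := by
          have := norm_sub_norm_le ξ (S.X l b v)
          linarith
        have h5 : 0 < ‖ξ - S.X l b v‖ := by linarith
        have h6 := half_log_ge' (ρ := Real.exp (-(M : ℝ))) h5
        have h7 : Real.log (‖ξ‖ / 2) ≤ Real.log ‖ξ - S.X l b v‖ :=
          Real.log_le_log (by linarith) h4
        rw [Real.log_div hξ0.ne' (by norm_num)] at h7
        linarith)
      rw [hpos]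
      linarith
    · have h1 := avg_bound (g := 0) hn hA₀ hcard' le_rfl hLy
        (fun b _ => layer (norm_nonneg (ξ - S.X l b v)) M) hL
        (fun h => absurd h (lt_irrefl _))
      have h2 : Real.posLog ‖ξ‖ ≤ S.K + Real.log 2 := by
        have h3 : Real.posLog ‖ξ‖ ≤ Real.posLog (2 * Real.exp S.K) :=
          Real.posLog_le_posLog (norm_nonneg _) (not_le.1 hξ).le
        have h4 : Real.posLog (2 * Real.exp S.K) = Real.log (2 * Real.exp S.K) := by
          apply Real.posLog_eq_log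
          have : 1 ≤ Real.exp (S.K : ℝ) := Real.one_le_exp hK
          rw [abs_of_pos (by positivity)]; linarith
        rw [h4, Real.log_mul (by norm_num) (Real.exp_pos _).ne', Real.log_exp] at h3
        linarith
      linarith
  · intro t x hx
    have hL := sum_layerT S l M hM t x
    rw [← hC'] at hL
    by_cases hxK : P.lev t x ≤ S.j l t + S.K
    · have h1 := avg_bound (g := 0) hn hA₀ hcard' le_rfl (fun b _ => hLyT t x b)
        (fun b _ => layerT t (S.j l t) M x b) hL
        (fun h => absurd h (lt_irrefl _))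
      have h2 : ((max (P.lev t x - S.j l t) 0 : ℤ) : ℝ) ≤ S.K := by
        have : max (P.lev t x - S.j l t) 0 ≤ (S.K : ℤ) := max_le (by linarith) (by positivity)
        exact_mod_cast this
      linarith
    · rw [not_le] at hxK
      have hKz : (0 : ℤ) ≤ S.K := Int.natCast_nonneg _
      have h0 : 0 ≤ P.lev t x - S.j l t := by linarith
      have h1 := avg_bound (g := ((P.lev t x - S.j l t : ℤ) : ℝ)) hn hA₀ hcard'
        (by exact_mod_cast h0) (fun b _ => hLyT t x b)
        (fun b _ => layerT t (S.j l t) M x b) hL (by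
        intro _ b hb
        have h2 := (hmain b hb).2 t
        have hxb : x - b ≠ 0 := by
          intro h3
          have h4 : x = b := sub_eq_zero.1 h3
          rcases h2 with h5 | h5
          · exact hx (h4.trans h5)
          · rw [sub_zero, ← h4] at h5
            linarith
        have h3 : P.lev t x ≤ P.lev t (x - b) := by
          rcases h2 with h5 | h5
          · rw [h5, sub_zero]
          · rw [sub_zero] at h5
            by_cases hb0 : b = 0
            · rw [hb0, sub_zero]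
            have h6 := S.geo.lev_add t (x - b) b hxb hb0 (by rwa [sub_add_cancel])
            rw [sub_add_cancel] at h6
            rcases le_max_iff.1 h6 with h7 | h7
            · exact h7
            · linarith
        have h4 := P.lev_le_cap (t := t) (m := S.j l t - M) hxb
        exact_mod_cast (show P.lev t x - S.j l t
          ≤ P.cap t (S.j l t - M) (x - b) - S.j l t by linarith))
      rw [max_eq_left h0]
      linarith
  · intro t
    have hL := sum_layerT S l M hM t 0
    rw [← hC'] at hL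
    have h1 := avg_bound (g := 0) hn hA₀ hcard' le_rfl (fun b _ => hLyT t 0 b)
      (fun b _ => layerT t (S.j l t) M 0 b) hL
      (fun h => absurd h (lt_irrefl _))
    linarith

end Pool.NS
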