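import Pool.Agent.Work.MP_b29d7f_ns.Interface3

/-!
# Block UPM: modulus of continuity of logarithmic potentials of bounded densities
-/

set_option autoImplicit false

open Finset Filter Topology MeasureTheory

namespace Pool.NS

namespace UPM_

variable {k : ℕ}

lemma nontriv (hk : 0 < k) : Nontrivial (E k) :=
  Module.nontrivial_of_finrank_pos (R := ℝ) (by rw [finrank_euclideanSpace_fin]; exact hk)

/-- truncated logarithm on a ball -/
noncomputable def lb (r : ℝ) (t : ℝ) : ℝ := if t ≤ r then Real.log t else 0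

lemma integrable_lb (hk : 0 < k) {r : ℝ} (hr : 0 ≤ r) : Integrable (fun w : E k => lb r ‖w‖) := by
  have := nontriv hk
  rw [integrable_fun_norm_addHaar (volume : Measure (E k)) (f := lb r)]
  have h1 : IntervalIntegrable (fun y : ℝ => y ^ (Module.finrank ℝ (E k) - 1) * Real.log y)
      volume 0 r := by
    apply IntervalIntegrable.continuousOn_mul intervalIntegral.intervalIntegrable_log'
    exact (continuous_pow _).continuousOn
  rw [intervalIntegrable_iff_integrableOn_Ioc_of_le hr] at h1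
  rw [← integrable_indicator_iff measurableSet_Ioc] at h1
  apply h1.integrableOn.congr_fun _ measurableSet_Ioi
  intro y hy
  rw [Set.mem_Ioi] at hy
  unfold lb
  by_cases h : y ≤ r
  · simp only [Set.indicator_of_mem (show y ∈ Set.Ioc 0 r from ⟨hy, h⟩), if_pos h, smul_eq_mul]
  · have h2 : y ∉ Set.Ioc 0 r := fun h3 => h h3.2
    simp only [Set.indicator_of_notMem h2, if_neg h, smul_zero]

/-- reciprocal on a shell -/
noncomputable def sh (ρ r : ℝ) (t : ℝ) : ℝ := if ρ < t ∧ t ≤ r then ρ / t else 0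

lemma sh_nonneg {ρ r : ℝ} (hρ : 0 < ρ) (t : ℝ) : 0 ≤ sh ρ r t := by
  unfold sh
  split_ifs with h
  · exact div_nonneg hρ.le (hρ.trans h.1).le
  · exact le_rfl

lemma sh_le {ρ r : ℝ} (hρ : 0 < ρ) (t : ℝ) : sh ρ r t ≤ 1 := by
  unfold sh
  split_ifs with h
  · rw [div_le_one (hρ.trans h.1)]; exact h.1.le
  · exact zero_le_one

lemma sh_meas (ρ r : ℝ) : Measurable (sh ρ r) := by
  unfold sh
  apply Measurable.ite
  · exact measurableSet_Ioi.inter measurableSet_Iic
  · exact measurable_const.div measurable_id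
  · exact measurable_const

lemma integrable_sh {ρ r : ℝ} (hρ : 0 < ρ) : Integrable (fun w : E k => sh ρ r ‖w‖) := by
  have h1 : IntegrableOn (fun w : E k => sh ρ r ‖w‖) (Metric.closedBall 0 r) := by
    apply Measure.integrableOn_of_bounded (M := 1)
    · exact measure_closedBall_lt_top.ne
    · exact ((sh_meas ρ r).comp measurable_norm).aestronglyMeasurable
    · apply ae_of_all
      intro w
      rw [Real.norm_eq_abs, abs_of_nonneg (sh_nonneg hρ _)]
      exact sh_le hρ _
  rw [← integrable_indicator_iff measurableSet_closedBall] at h1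
  have h2 : (Metric.closedBall (0 : E k) r).indicator (fun w : E k => sh ρ r ‖w‖)
      = fun w : E k => sh ρ r ‖w‖ := by
    apply Set.indicator_eq_self.2
    intro w hw
    rw [Metric.mem_closedBall, dist_zero_right]
    by_contra h
    apply hw
    show sh ρ r ‖w‖ = 0
    unfold sh
    rw [if_neg]
    exact fun h' => h h'.2
  rwa [h2] at h1

lemma integral_sh (hk : 0 < k) {ρ r : ℝ} (hρ : 0 < ρ) (hr : ρ ≤ r) :
    ∫ w : E k, sh ρ r ‖w‖ ≤ (k : ℝ) * (volume : Measure (E k)).real (Metric.ball 0 1)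
      * (r ^ (k - 1) * (ρ * Real.log (r / ρ))) := by
  have := nontriv hk
  rw [integral_fun_norm_addHaar (volume : Measure (E k)) (sh ρ r)]
  rw [nsmul_eq_mul, smul_eq_mul, finrank_euclideanSpace_fin, ← mul_assoc]
  apply mul_le_mul_of_nonneg_left _ (mul_nonneg (Nat.cast_nonneg _) measureReal_nonneg)
  have hr0 : 0 < r := lt_of_lt_of_le hρ hr
  have h1 : ∫ y in Set.Ioi (0 : ℝ), y ^ (k - 1) • sh ρ r y
      ≤ ∫ y in Set.Ioi (0 : ℝ), (Set.Ioc ρ r).indicator (fun y => r ^ (k - 1) * (ρ * y⁻¹)) y := by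
    apply integral_mono_of_nonneg
    · rw [EventuallyLE, ae_restrict_iff' measurableSet_Ioi]
      apply ae_of_all
      intro y hy
      exact mul_nonneg (pow_nonneg (le_of_lt hy) _) (sh_nonneg hρ _)
    · apply Integrable.integrableOn
      rw [integrable_indicator_iff measurableSet_Ioc]
      have h2 : ContinuousOn (fun y : ℝ => r ^ (k - 1) * (ρ * y⁻¹)) (Set.Icc ρ r) := by
        apply ContinuousOn.mul continuousOn_const
        apply ContinuousOn.mul continuousOn_const
        apply ContinuousOn.inv₀ continuousOn_id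
        intro y hy
        exact (lt_of_lt_of_le hρ hy.1).ne'
      exact (h2.integrableOn_compact isCompact_Icc).mono_set Set.Ioc_subset_Icc_self
    · rw [EventuallyLE, ae_restrict_iff' measurableSet_Ioi]
      apply ae_of_all
      intro y hy
      rw [Set.mem_Ioi] at hy
      show y ^ (k - 1) * sh ρ r y ≤ _
      by_cases h : y ∈ Set.Ioc ρ r
      · rw [Set.indicator_of_mem h]
        unfold sh
        rw [if_pos ⟨h.1, h.2⟩, div_eq_mul_inv]
        apply mul_le_mul_of_nonneg_right _ (mul_nonneg hρ.le (inv_nonneg.2 hy.le))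
        exact pow_le_pow_left₀ hy.le h.2 _
      · rw [Set.indicator_of_notMem h]
        unfold sh
        rw [if_neg (fun h' => h ⟨h'.1, h'.2⟩), mul_zero]
  refine h1.trans ?_
  rw [setIntegral_indicator measurableSet_Ioc]
  have h2 : Set.Ioi (0 : ℝ) ∩ Set.Ioc ρ r = Set.Ioc ρ r := by
    apply Set.inter_eq_right.2
    intro y hy
    exact hρ.trans hy.1
  rw [h2, ← intervalIntegral.integral_of_le hr, intervalIntegral.integral_const_mul,
    intervalIntegral.integral_const_mul, integral_inv_of_pos hρ hr0]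

/-- the difference of two logarithms -/
lemma log_diff {a b δ : ℝ} (ha : 0 < a) (hb : 0 < b) (hδ : 0 < δ) (hab : |a - b| ≤ δ) :
    |Real.log a - Real.log b| ≤ (if a ≤ 3 * δ then -Real.log (a / (3 * δ)) else 0)
      + (if b ≤ 3 * δ then -Real.log (b / (3 * δ)) else 0)
      + (if 2 * δ < a then 2 * δ / a else 0) := by
  rw [abs_le] at hab
  have h3 : 0 < 3 * δ := by linarith
  have hneg : ∀ t : ℝ, 0 < t → t ≤ 3 * δ → 0 ≤ -Real.log (t / (3 * δ)) := by
    intro t ht htl
    have : Real.log (t / (3 * δ)) ≤ 0 :=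
      Real.log_nonpos (div_nonneg ht.le h3.le) ((div_le_one h3).2 htl)
    linarith
  have hA : 0 ≤ (if a ≤ 3 * δ then -Real.log (a / (3 * δ)) else 0) := by
    split_ifs with h
    · exact hneg a ha h
    · exact le_rfl
  have hB : 0 ≤ (if b ≤ 3 * δ then -Real.log (b / (3 * δ)) else 0) := by
    split_ifs with h
    · exact hneg b hb h
    · exact le_rfl
  by_cases h : 2 * δ < a
  · rw [if_pos h]
    have h1 : |Real.log a - Real.log b| ≤ 2 * δ / a := by
      have hba : 0 < b / a := div_pos hb ha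
      have e1 : Real.log (b / a) = Real.log b - Real.log a := Real.log_div hb.ne' ha.ne'
      have e2 : Real.log (a / b) = Real.log a - Real.log b := Real.log_div ha.ne' hb.ne'
      have h2 := Real.log_le_sub_one_of_pos hba
      have h4 := Real.log_le_sub_one_of_pos (div_pos ha hb)
      have h5 : b / a - 1 ≤ 2 * δ / a := by
        rw [div_sub_one ha.ne', div_le_div_iff_of_pos_right ha]; linarith
      have h6 : a / b - 1 ≤ 2 * δ / a := by
        rw [div_sub_one hb.ne', div_le_div_iff₀ hb ha]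
        nlinarith
      rw [abs_le]
      constructor <;> linarith
    linarith
  · rw [if_neg h, add_zero]
    have ha3 : a ≤ 3 * δ := by linarith
    have hb3 : b ≤ 3 * δ := by linarith
    rw [if_pos ha3, if_pos hb3, Real.log_div ha.ne' h3.ne', Real.log_div hb.ne' h3.ne']
    have h1 := hneg a ha ha3
    have h2 := hneg b hb hb3
    rw [Real.log_div ha.ne' h3.ne'] at h1
    rw [Real.log_div hb.ne' h3.ne'] at h2
    rw [abs_le]
    constructor <;> linarith

lemma integrable_pot (hk : 0 < k) {f φ : E k → ℝ} (h : Dens k f φ) (x : E k) :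
    Integrable (fun z => Real.log ‖x - z‖ * f z) := by
  obtain ⟨Bf, hBf⟩ := h.bdd
  obtain ⟨R₀, hR₀⟩ := h.supp
  have hBf0 : 0 ≤ Bf := le_trans (h.nonneg 0) (hBf 0)
  obtain ⟨r, hr⟩ : ∃ r, r = ‖x‖ + |R₀| := ⟨_, rfl⟩
  have hr0 : 0 ≤ r := by rw [hr]; positivity
  have h1 : Integrable (fun z : E k => Bf * |lb r ‖x - z‖|) :=
    (((integrable_lb hk hr0).comp_sub_left x).abs).const_mul Bf
  apply h1.mono'
  · have h2 : Measurable (fun z : E k => Real.log ‖x - z‖) :=
      Real.measurable_log.comp (measurable_norm.comp (measurable_const.sub measurable_id))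
    exact (h2.mul h.meas).aestronglyMeasurable
  · apply ae_of_all
    intro z
    rw [Real.norm_eq_abs, abs_mul, abs_of_nonneg (h.nonneg z)]
    by_cases hz : R₀ ≤ ‖z‖
    · rw [hR₀ z hz, mul_zero]; positivity
    · have h2 : ‖x - z‖ ≤ r := by
        rw [hr]
        have := norm_sub_le x z
        have := le_abs_self R₀
        linarith
      unfold lb
      rw [if_pos h2, mul_comm]
      exact mul_le_mul_of_nonneg_right (hBf z) (abs_nonneg _)

/-- minus logarithm on the unit ball -/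
noncomputable def b1 (k : ℕ) (w : E k) : ℝ := -lb 1 ‖w‖

lemma b1_scale {δ : ℝ} (hδ : 0 < δ) (w : E k) :
    b1 k ((3 * δ)⁻¹ • w) = if ‖w‖ ≤ 3 * δ then -Real.log (‖w‖ / (3 * δ)) else 0 := by
  have h3 : 0 < 3 * δ := by linarith
  unfold b1 lb
  rw [norm_smul, norm_inv, Real.norm_eq_abs, abs_of_pos h3, inv_mul_eq_div]
  by_cases h : ‖w‖ ≤ 3 * δ
  · rw [if_pos h, if_pos ((div_le_one h3).2 h)]
  · rw [if_neg h, if_neg (fun h' => h ((div_le_one h3).1 h')), neg_zero]

lemma b1_nonneg (w : E k) : 0 ≤ b1 k w := by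
  unfold b1 lb
  split_ifs with h
  · have := Real.log_nonpos (norm_nonneg w) h
    linarith
  · simp

end UPM_

open UPM_ in
theorem stmt_UPM : Stmt_UPM := by
  intro k f φ hk12 h B
  have hk : 0 < k := by rcases hk12 with h | h <;> omega
  have := nontriv hk
  obtain ⟨Bf, hBf⟩ := h.bdd
  obtain ⟨R₀, hR₀⟩ := h.supp
  have hBf0 : 0 ≤ Bf := le_trans (h.nonneg 0) (hBf 0)
  obtain ⟨r, hr⟩ : ∃ r, r = |B| + |R₀| + 1 := ⟨_, rfl⟩
  have hr1 : 1 ≤ r := by rw [hr]; linarith [abs_nonneg B, abs_nonneg R₀]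
  have hr0 : 0 < r := by linarith
  obtain ⟨I₁, hI₁⟩ : ∃ I₁, I₁ = ∫ w : E k, b1 k w := ⟨_, rfl⟩
  have hI₁0 : 0 ≤ I₁ := by rw [hI₁]; exact integral_nonneg b1_nonneg
  obtain ⟨V, hV⟩ : ∃ V, V = (k : ℝ) * (volume : Measure (E k)).real (Metric.ball 0 1) := ⟨_, rfl⟩
  have hV0 : 0 ≤ V := by rw [hV]; exact mul_nonneg (Nat.cast_nonneg _) measureReal_nonneg
  have hb1int : Integrable (b1 k) := (integrable_lb hk (zero_le_one)).neg
  have hlog2 : 0 < Real.log 2 := Real.log_pos (by norm_num)
  obtain ⟨C₀, hC₀⟩ : ∃ C₀, C₀ = (9 * I₁ + 2 * V * r ^ (k - 1) * Real.log r) / Real.log 2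
    + 2 * V * r ^ (k - 1) := ⟨_, rfl⟩
  have hlogr : 0 ≤ Real.log r := Real.log_nonneg hr1
  have hC₀0 : 0 ≤ C₀ := by rw [hC₀]; positivity
  refine ⟨k * (Bf * C₀), by positivity, ?_⟩
  intro x y hx hy hxy
  rcases eq_or_lt_of_le (norm_nonneg (x - y)) with h0 | h0
  · have h1 : x = y := sub_eq_zero.1 (norm_eq_zero.1 h0.symm)
    rw [← h0, h1, sub_self, abs_zero]
    simp
  obtain ⟨δ, hδ⟩ : ∃ δ, δ = ‖x - y‖ := ⟨_, rfl⟩
  rw [← hδ] at h0 hxy ⊢
  have hinv3 : 0 < 3 * δ := by linarith
  rw [h.pot x, h.pot y, ← mul_sub, ← integral_sub (integrable_pot hk h x) (integrable_pot hk h y),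
    abs_mul, abs_of_nonneg (Nat.cast_nonneg (α := ℝ) k)]
  have hmaj : Integrable (fun z : E k => Bf * (b1 k ((3 * δ)⁻¹ • (x - z))
      + b1 k ((3 * δ)⁻¹ • (y - z)) + sh (2 * δ) r ‖x - z‖)) := by
    apply Integrable.const_mul
    apply Integrable.add
    · apply Integrable.add
      · exact (hb1int.comp_smul (inv_ne_zero hinv3.ne')).comp_sub_left x
      · exact (hb1int.comp_smul (inv_ne_zero hinv3.ne')).comp_sub_left y
    · exact (integrable_sh (by linarith)).comp_sub_left x
  have hbound : ‖∫ z, (Real.log ‖x - z‖ * f z - Real.log ‖y - z‖ * f z)‖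
      ≤ ∫ z : E k, Bf * (b1 k ((3 * δ)⁻¹ • (x - z))
      + b1 k ((3 * δ)⁻¹ • (y - z)) + sh (2 * δ) r ‖x - z‖) := by
    apply norm_integral_le_of_norm_le hmaj
    have hx0 : ∀ᵐ z : E k, z ≠ x := by
      rw [ae_iff]; simp only [ne_eq, not_not]
      have : {a : E k | a = x} = {x} := rfl
      rw [this]; exact measure_singleton x
    have hy0 : ∀ᵐ z : E k, z ≠ y := by
      rw [ae_iff]; simp only [ne_eq, not_not]
      have : {a : E k | a = y} = {y} := rfl
      rw [this]; exact measure_singleton y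
    filter_upwards [hx0, hy0] with z hzx hzy
    rw [b1_scale h0, b1_scale h0, ← sub_mul, norm_mul, Real.norm_eq_abs, Real.norm_eq_abs,
      abs_of_nonneg (h.nonneg z)]
    have hmaj0 : 0 ≤ (if ‖x - z‖ ≤ 3 * δ then -Real.log (‖x - z‖ / (3 * δ)) else 0)
        + (if ‖y - z‖ ≤ 3 * δ then -Real.log (‖y - z‖ / (3 * δ)) else 0)
        + sh (2 * δ) r ‖x - z‖ := by
      have h1 := b1_nonneg ((3 * δ)⁻¹ • (x - z))
      have h2 := b1_nonneg ((3 * δ)⁻¹ • (y - z))
      have h3 := sh_nonneg (r := r) (show 0 < 2 * δ by linarith) ‖x - z‖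
      rw [b1_scale h0] at h1 h2
      linarith
    by_cases hz : R₀ ≤ ‖z‖
    · rw [hR₀ z hz, mul_zero]
      exact mul_nonneg hBf0 hmaj0
    · have h1 : ‖x - z‖ ≤ r := by
        rw [hr]
        have := norm_sub_le x z
        have := le_abs_self R₀
        have := le_abs_self B
        linarith
      have hpx : 0 < ‖x - z‖ := norm_pos_iff.2 (sub_ne_zero.2 hzx.symm)
      have hpy : 0 < ‖y - z‖ := norm_pos_iff.2 (sub_ne_zero.2 hzy.symm)
      have h2 : |‖x - z‖ - ‖y - z‖| ≤ δ := by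
        have := abs_norm_sub_norm_le (x - z) (y - z)
        rwa [sub_sub_sub_cancel_right, ← hδ] at this
      have h3 := log_diff hpx hpy h0 h2
      have h4 : (if 2 * δ < ‖x - z‖ then 2 * δ / ‖x - z‖ else 0) = sh (2 * δ) r ‖x - z‖ := by
        unfold sh
        by_cases h5 : 2 * δ < ‖x - z‖
        · rw [if_pos h5, if_pos ⟨h5, h1⟩]
        · rw [if_neg h5, if_neg (fun h6 => h5 h6.1)]
      rw [h4] at h3
      rw [mul_comm]
      exact mul_le_mul (hBf z) h3 (abs_nonneg _) hBf0
  have hval : ∫ z : E k, Bf * (b1 k ((3 * δ)⁻¹ • (x - z))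
      + b1 k ((3 * δ)⁻¹ • (y - z)) + sh (2 * δ) r ‖x - z‖)
      = Bf * (2 * ((3 * δ) ^ k * I₁) + ∫ w : E k, sh (2 * δ) r ‖w‖) := by
    have hb : Integrable (fun w : E k => b1 k ((3 * δ)⁻¹ • w)) :=
      hb1int.comp_smul (inv_ne_zero hinv3.ne')
    have hs : Integrable (fun w : E k => sh (2 * δ) r ‖w‖) := integrable_sh (by linarith)
    have hxy' : Integrable (fun z : E k => b1 k ((3 * δ)⁻¹ • (x - z))
        + b1 k ((3 * δ)⁻¹ • (y - z))) := (hb.comp_sub_left x).add (hb.comp_sub_left y)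
    rw [integral_const_mul, integral_add hxy'
      (hs.comp_sub_left x), integral_add (hb.comp_sub_left x) (hb.comp_sub_left y),
      integral_sub_left_eq_self (fun w : E k => b1 k ((3 * δ)⁻¹ • w)),
      integral_sub_left_eq_self (fun w : E k => b1 k ((3 * δ)⁻¹ • w)),
      integral_sub_left_eq_self (fun w : E k => sh (2 * δ) r ‖w‖),
      Measure.integral_comp_inv_smul_of_nonneg volume (b1 k) hinv3.le, finrank_euclideanSpace_fin,
      smul_eq_mul, ← hI₁]
    ring
  rw [hval, Real.norm_eq_abs] at hbound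
  have hsh := integral_sh hk (show 0 < 2 * δ by linarith) (show 2 * δ ≤ r by linarith)
  rw [← hV] at hsh
  have hpow : (3 * δ) ^ k ≤ 9 / 2 * δ := by
    rcases hk12 with h1 | h1
    · rw [h1, pow_one]; linarith
    · rw [h1]; nlinarith
  have hlogδ : Real.log 2 ≤ Real.log (1 / δ) := by
    apply Real.log_le_log (by norm_num)
    rw [le_div_iff₀ h0]; linarith
  have hlogδ' : 1 ≤ Real.log (1 / δ) / Real.log 2 := by
    rw [le_div_iff₀ hlog2]; linarith
  have hlogr2 : Real.log (r / (2 * δ)) ≤ Real.log r + Real.log (1 / δ) := by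
    rw [← Real.log_mul hr0.ne' (by positivity)]
    apply Real.log_le_log (by positivity)
    rw [mul_one_div, div_le_div_iff₀ (by linarith) h0]
    nlinarith
  have hL0 : 0 ≤ Real.log (1 / δ) := by linarith
  have hr1p : 0 ≤ r ^ (k - 1) := by positivity
  have hfin : 2 * ((3 * δ) ^ k * I₁) + ∫ w : E k, sh (2 * δ) r ‖w‖
      ≤ C₀ * δ * Real.log (1 / δ) := by
    have e1 : 2 * ((3 * δ) ^ k * I₁) ≤ 9 * I₁ * δ := by
      have := mul_le_mul_of_nonneg_right hpow hI₁0
      linarith
    have e2 : ∫ w : E k, sh (2 * δ) r ‖w‖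
        ≤ V * (r ^ (k - 1) * (2 * δ * (Real.log r + Real.log (1 / δ)))) := by
      refine hsh.trans ?_
      apply mul_le_mul_of_nonneg_left _ hV0
      apply mul_le_mul_of_nonneg_left _ hr1p
      exact mul_le_mul_of_nonneg_left hlogr2 (by linarith)
    have e3 : V * (r ^ (k - 1) * (2 * δ * (Real.log r + Real.log (1 / δ))))
        = (2 * V * r ^ (k - 1) * Real.log r) * δ
          + 2 * V * r ^ (k - 1) * δ * Real.log (1 / δ) := by ring
    have e4 : (9 * I₁ + 2 * V * r ^ (k - 1) * Real.log r) * δ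
        ≤ (9 * I₁ + 2 * V * r ^ (k - 1) * Real.log r) * δ * (Real.log (1 / δ) / Real.log 2) := by
      have : 0 ≤ (9 * I₁ + 2 * V * r ^ (k - 1) * Real.log r) * δ := by positivity
      exact le_mul_of_one_le_right this hlogδ'
    have e5 : C₀ * δ * Real.log (1 / δ)
        = (9 * I₁ + 2 * V * r ^ (k - 1) * Real.log r) * δ * (Real.log (1 / δ) / Real.log 2)
          + 2 * V * r ^ (k - 1) * δ * Real.log (1 / δ) := by
      rw [hC₀]; ring
    rw [e5]
    linarith
  calc (k : ℝ) * |∫ z, (Real.log ‖x - z‖ * f z - Real.log ‖y - z‖ * f z)|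
      ≤ k * (Bf * (C₀ * δ * Real.log (1 / δ))) := by
        apply mul_le_mul_of_nonneg_left _ (Nat.cast_nonneg _)
        exact hbound.trans (mul_le_mul_of_nonneg_left hfin hBf0)
    _ = k * (Bf * C₀) * δ * Real.log (1 / δ) := by ring

end Pool.NS
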