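import Pool.Agent.Work.MP_b29d7f_ns.Interface3

/-!
# Block WKC: weak convergence on sets with boundary of measure zero, for pairs
-/

set_option autoImplicit false

open Finset Filter Topology MeasureTheory

namespace Pool.NS

namespace WKC_

variable {k : ℕ}

lemma integrable_of_bdd {F : E k → ℝ} (hm : Measurable F) {C R : ℝ} (hC : ∀ z, |F z| ≤ C)
    (hR : ∀ z, R < ‖z‖ → F z = 0) : Integrable F := by
  have h1 : IntegrableOn F (Metric.closedBall 0 R) := by
    apply Measure.integrableOn_of_bounded (M := C)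
    · exact measure_closedBall_lt_top.ne
    · exact hm.aestronglyMeasurable
    · exact ae_of_all _ (fun z => by rw [Real.norm_eq_abs]; exact hC z)
  rw [← integrable_indicator_iff measurableSet_closedBall] at h1
  have h2 : (Metric.closedBall (0 : E k) R).indicator F = F := by
    apply Set.indicator_eq_self.2
    intro z hz
    rw [Metric.mem_closedBall, dist_zero_right]
    by_contra h
    exact hz (hR z (not_le.1 h))
  rwa [h2] at h1

/-- continuous approximations of the indicator function of a set with null boundary -/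
lemma approx {Q : Set (E k)} {R₀ : ℝ} (hQ : Q ⊆ Metric.closedBall 0 R₀)
    (hQ0 : volume (frontier Q) = 0) {ε : ℝ} (hε : 0 < ε) :
    ∃ φ₁ φ₂ : E k → ℝ, Continuous φ₁ ∧ Continuous φ₂ ∧
      (∀ z, 0 ≤ φ₁ z ∧ φ₁ z ≤ φ₂ z ∧ φ₂ z ≤ 1) ∧ (∀ z ∈ Q, φ₂ z = 1) ∧ (∀ z, z ∉ Q → φ₁ z = 0) ∧
      (∀ z, R₀ + 1 < ‖z‖ → φ₂ z = 0) ∧ ∫ z, (φ₂ z - φ₁ z) ≤ ε := by
  obtain ⟨δ, hδ⟩ : ∃ δ : ℕ → ℝ, δ = fun n : ℕ => 1 / ((n : ℝ) + 1) := ⟨_, rfl⟩
  have hδpos : ∀ n, 0 < δ n := fun n => by rw [hδ]; positivity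
  have hδlim : Tendsto δ atTop (𝓝 0) := by
    rw [hδ]; exact tendsto_one_div_add_atTop_nhds_zero_nat
  have hδ1 : ∀ n, δ n ≤ 1 := by
    intro n
    rw [hδ]
    have : (0 : ℝ) ≤ n := Nat.cast_nonneg n
    show 1 / ((n : ℝ) + 1) ≤ 1
    rw [div_le_one (by positivity)]; linarith
  obtain ⟨a, ha⟩ : ∃ a : ℕ → E k → ℝ,
    a = fun n z => ((thickenedIndicator (hδpos n) Q z : NNReal) : ℝ) := ⟨_, rfl⟩
  obtain ⟨b, hb⟩ : ∃ b : ℕ → E k → ℝ,
    b = fun n z => ((thickenedIndicator (hδpos n) Qᶜ z : NNReal) : ℝ) := ⟨_, rfl⟩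
  have ha_cont : ∀ n, Continuous (a n) := by
    intro n; rw [ha]
    exact NNReal.continuous_coe.comp (thickenedIndicator (hδpos n) Q).continuous
  have hb_cont : ∀ n, Continuous (b n) := by
    intro n; rw [hb]
    exact NNReal.continuous_coe.comp (thickenedIndicator (hδpos n) Qᶜ).continuous
  have ha0 : ∀ n z, 0 ≤ a n z := by intro n z; rw [ha]; exact NNReal.coe_nonneg _
  have hb0 : ∀ n z, 0 ≤ b n z := by intro n z; rw [hb]; exact NNReal.coe_nonneg _
  have ha1 : ∀ n z, a n z ≤ 1 := by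
    intro n z; rw [ha]; exact_mod_cast thickenedIndicator_le_one (hδpos n) Q z
  have hb1 : ∀ n z, b n z ≤ 1 := by
    intro n z; rw [hb]; exact_mod_cast thickenedIndicator_le_one (hδpos n) Qᶜ z
  have haQ : ∀ n, ∀ z ∈ Q, a n z = 1 := by
    intro n z hz; rw [ha]
    show ((thickenedIndicator (hδpos n) Q z : NNReal) : ℝ) = 1
    rw [thickenedIndicator_one (hδpos n) Q hz, NNReal.coe_one]
  have hbQ : ∀ n, ∀ z, z ∉ Q → b n z = 1 := by
    intro n z hz; rw [hb]
    show ((thickenedIndicator (hδpos n) Qᶜ z : NNReal) : ℝ) = 1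
    rw [thickenedIndicator_one (hδpos n) Qᶜ hz, NNReal.coe_one]
  have haout : ∀ n z, R₀ + 1 < ‖z‖ → a n z = 0 := by
    intro n z hz
    rw [ha]
    show ((thickenedIndicator (hδpos n) Q z : NNReal) : ℝ) = 0
    rw [thickenedIndicator_zero (hδpos n) Q, NNReal.coe_zero]
    intro hzQ
    rw [Metric.mem_thickening_iff] at hzQ
    obtain ⟨w, hw, hzw⟩ := hzQ
    have h1 := hQ hw
    rw [Metric.mem_closedBall, dist_zero_right] at h1
    have h2 : ‖z‖ ≤ ‖w‖ + dist z w := by
      rw [dist_eq_norm]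
      have := norm_add_le w (z - w)
      rwa [add_sub_cancel] at this
    linarith [hδ1 n]
  have houtQ : ∀ z, R₀ + 1 < ‖z‖ → z ∉ Q := by
    intro z hz hzQ
    have h1 := hQ hzQ
    rw [Metric.mem_closedBall, dist_zero_right] at h1
    linarith
  have hlim : Tendsto (fun n => ∫ z, (a n z + b n z - 1)) atTop (𝓝 (∫ _ : E k, (0 : ℝ))) := by
    apply tendsto_integral_of_dominated_convergence
      ((Metric.closedBall (0 : E k) (R₀ + 1)).indicator fun _ => (1 : ℝ))
    · intro n
      exact (((ha_cont n).add (hb_cont n)).sub continuous_const).aestronglyMeasurable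
    · rw [integrable_indicator_iff measurableSet_closedBall]
      exact integrableOn_const measure_closedBall_lt_top.ne (by simp)
    · intro n
      apply ae_of_all
      intro z
      rw [Real.norm_eq_abs]
      by_cases hz : z ∈ Metric.closedBall (0 : E k) (R₀ + 1)
      · rw [Set.indicator_of_mem hz, abs_le]
        constructor <;> linarith [ha0 n z, hb0 n z, ha1 n z, hb1 n z]
      · rw [Set.indicator_of_notMem hz]
        rw [Metric.mem_closedBall, dist_zero_right, not_le] at hz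
        rw [haout n z hz, hbQ n z (houtQ z hz)]
        norm_num
    · have h1 : ∀ᵐ z : E k, z ∉ frontier Q := by
        rw [ae_iff]
        have : {z : E k | ¬ (z ∉ frontier Q)} = frontier Q := by
          ext z; simp
        rw [this]; exact hQ0
      filter_upwards [h1] with z hz
      have h2 : Tendsto (fun n => a n z) atTop
          (𝓝 (((closure Q).indicator (fun _ => (1 : NNReal)) z : NNReal) : ℝ)) := by
        have := thickenedIndicator_tendsto_indicator_closure hδpos hδlim Q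
        rw [tendsto_pi_nhds] at this
        rw [ha]
        exact (NNReal.continuous_coe.tendsto _).comp (this z)
      have h3 : Tendsto (fun n => b n z) atTop
          (𝓝 (((closure Qᶜ).indicator (fun _ => (1 : NNReal)) z : NNReal) : ℝ)) := by
        have := thickenedIndicator_tendsto_indicator_closure hδpos hδlim Qᶜ
        rw [tendsto_pi_nhds] at this
        rw [hb]
        exact (NNReal.continuous_coe.tendsto _).comp (this z)
      have h4 : (((closure Q).indicator (fun _ => (1 : NNReal)) z : NNReal) : ℝ)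
          + (((closure Qᶜ).indicator (fun _ => (1 : NNReal)) z : NNReal) : ℝ) - 1 = 0 := by
        rw [frontier_eq_closure_inter_closure, Set.mem_inter_iff, not_and_or] at hz
        by_cases h5 : z ∈ closure Q
        · have h6 : z ∉ closure Qᶜ := by
            rcases hz with h | h
            · exact absurd h5 h
            · exact h
          rw [Set.indicator_of_mem h5, Set.indicator_of_notMem h6]
          simp
        · have h6 : z ∈ closure Qᶜ := by
            apply subset_closure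
            intro hzQ
            exact h5 (subset_closure hzQ)
          rw [Set.indicator_of_notMem h5, Set.indicator_of_mem h6]
          simp
      have h5 := (h2.add h3).sub_const 1
      rwa [h4] at h5
  rw [integral_zero] at hlim
  obtain ⟨n, hn⟩ := (hlim.eventually (ge_mem_nhds hε)).exists
  refine ⟨fun z => 1 - b n z, a n, continuous_const.sub (hb_cont n), ha_cont n, ?_, haQ n, ?_,
    haout n, ?_⟩
  · intro z
    refine ⟨by linarith [hb1 n z], ?_, ha1 n z⟩
    show 1 - b n z ≤ a n z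
    by_cases hz : z ∈ Q
    · rw [haQ n z hz]; linarith [hb0 n z]
    · rw [hbQ n z hz]; linarith [ha0 n z]
  · intro z hz
    show 1 - b n z = 0
    rw [hbQ n z hz]; ring
  · have h1 : ∀ z, a n z - (1 - b n z) = a n z + b n z - 1 := fun z => by ring
    simp only [h1]
    exact hn

/-- empirical measures converging to `f` on compactly supported continuous functions -/
structure Wk {ι : Type} (L : Filter ℕ) (A : ℕ → Finset ι) (X : ℕ → ι → E k) (n : ℕ → ℝ)
    (f : E k → ℝ) : Prop where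
  pos : ∀ l, 0 < n l
  card : ∀ l, ((A l).card : ℝ) = n l
  meas : Measurable f
  nonneg : ∀ z, 0 ≤ f z
  bdd : ∃ B, ∀ z, f z ≤ B
  supp : ∃ R₀, ∀ z, R₀ ≤ ‖z‖ → f z = 0
  mass : ∫ z, f z = 1
  weak : ∀ g : E k → ℝ, Continuous g → HasCompactSupport g →
    Tendsto (fun l => (n l)⁻¹ * ∑ b ∈ A l, g (X l b)) L (𝓝 (∫ z, g z * f z))

variable {ι : Type} {L : Filter ℕ} {A : ℕ → Finset ι} {X : ℕ → ι → E k} {n : ℕ → ℝ}
  {f : E k → ℝ}

lemma compact_supp {g : E k → ℝ} {r : ℝ} (h : ∀ z, r < ‖z‖ → g z = 0) : HasCompactSupport g := by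
  apply HasCompactSupport.intro (isCompact_closedBall (0 : E k) r)
  intro z hz
  apply h
  rw [Metric.mem_closedBall, dist_zero_right, not_le] at hz
  exact hz

lemma Wk.integrable (h : Wk L A X n f) : Integrable f := by
  obtain ⟨B, hB⟩ := h.bdd
  obtain ⟨R₀, hR₀⟩ := h.supp
  apply integrable_of_bdd h.meas (C := B) (R := R₀)
  · intro z; rw [abs_of_nonneg (h.nonneg z)]; exact hB z
  · intro z hz; exact hR₀ z hz.le

lemma exists_ball {Q : Set (E k)} (hb : Bornology.IsBounded Q) :
    ∃ R₀ : ℝ, 0 ≤ R₀ ∧ Q ⊆ Metric.closedBall 0 R₀ := by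
  obtain ⟨r, hr⟩ := hb.subset_closedBall 0
  exact ⟨max r 0, le_max_right _ _, hr.trans (Metric.closedBall_subset_closedBall (le_max_left _ _))⟩

open scoped Classical in
lemma single (h : Wk L A X n f) {Q : Set (E k)} (hb : Bornology.IsBounded Q)
    (hm : MeasurableSet Q) (h0 : volume (frontier Q) = 0) {g : E k → ℝ} (hg : Continuous g) :
    Tendsto (fun l => (n l)⁻¹ * ∑ b ∈ (A l).filter (fun b => X l b ∈ Q), g (X l b)) L
      (𝓝 (∫ z in Q, g z * f z)) := by
  obtain ⟨R₀, hR₀, hQ⟩ := exists_ball hb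
  obtain ⟨Mg, hMg⟩ := (isCompact_closedBall (0 : E k) (R₀ + 1)).exists_bound_of_continuousOn
    hg.continuousOn
  have hMg0 : 0 ≤ Mg := by
    have h1 := hMg 0 (by rw [Metric.mem_closedBall, dist_self]; linarith)
    exact le_trans (norm_nonneg _) h1
  have hMgQ : ∀ z ∈ Q, |g z| ≤ Mg := by
    intro z hz
    apply hMg z
    exact Metric.closedBall_subset_closedBall (by linarith) (hQ hz)
  obtain ⟨Bf, hBf⟩ := h.bdd
  have hBf0 : 0 ≤ Bf := le_trans (h.nonneg 0) (hBf 0)
  rw [Metric.tendsto_nhds]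
  intro ε hε
  obtain ⟨D, hD⟩ : ∃ D, D = 2 * Mg * Bf + Mg + 1 := ⟨_, rfl⟩
  have hD0 : 0 < D := by rw [hD]; positivity
  obtain ⟨η, hη⟩ : ∃ η, η = ε / (2 * D) := ⟨_, rfl⟩
  have hη0 : 0 < η := by rw [hη]; positivity
  have hηD : η * D < ε := by
    rw [hη]
    have : ε / (2 * D) * D = ε / 2 := by field_simp
    rw [this]; linarith
  obtain ⟨φ₁, φ₂, hc1, hc2, hφ, hφQ, hφQ', hout, hint⟩ := approx hQ h0 hη0
  have hφ₁out : ∀ z, R₀ + 1 < ‖z‖ → φ₁ z = 0 := by
    intro z hz
    have h1 := hφ z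
    have h2 := hout z hz
    linarith [h1.1, h1.2.1]
  have hW1 := h.weak (fun z => φ₁ z * g z) (hc1.mul hg) (compact_supp (r := R₀ + 1)
    (fun z hz => by show φ₁ z * g z = 0; rw [hφ₁out z hz, zero_mul]))
  have hW2 := h.weak (fun z => φ₂ z - φ₁ z) (hc2.sub hc1) (compact_supp (r := R₀ + 1)
    (fun z hz => by show φ₂ z - φ₁ z = 0; rw [hφ₁out z hz, hout z hz, sub_zero]))
  have hdint : Integrable (fun z => φ₂ z - φ₁ z) :=
    integrable_of_bdd (hc2.sub hc1).measurable (C := 1) (R := R₀ + 1)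
      (fun z => by rw [abs_le]; constructor <;> linarith [(hφ z).1, (hφ z).2.1, (hφ z).2.2])
      (fun z hz => by rw [hφ₁out z hz, hout z hz, sub_zero])
  have hI2 : ∫ z, (φ₂ z - φ₁ z) * f z ≤ Bf * η := by
    calc ∫ z, (φ₂ z - φ₁ z) * f z ≤ ∫ z, Bf * (φ₂ z - φ₁ z) := by
          apply integral_mono_of_nonneg
          · exact ae_of_all _ fun z => mul_nonneg (by linarith [(hφ z).2.1]) (h.nonneg z)
          · exact hdint.const_mul _
          · apply ae_of_all
            intro z
            show (φ₂ z - φ₁ z) * f z ≤ Bf * (φ₂ z - φ₁ z)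
            rw [mul_comm]
            exact mul_le_mul_of_nonneg_right (hBf z) (by linarith [(hφ z).2.1])
      _ = Bf * ∫ z, (φ₂ z - φ₁ z) := integral_const_mul _ _
      _ ≤ Bf * η := mul_le_mul_of_nonneg_left hint hBf0
  have hI1 : |(∫ z, φ₁ z * g z * f z) - ∫ z in Q, g z * f z| ≤ Mg * Bf * η := by
    have hi1 : Integrable (fun z => φ₁ z * g z * f z) := by
      apply integrable_of_bdd ((hc1.measurable.mul hg.measurable).mul h.meas)
        (C := Mg * Bf) (R := R₀ + 1)
      · intro z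
        show |φ₁ z * g z * f z| ≤ Mg * Bf
        rw [abs_mul, abs_mul, abs_of_nonneg (hφ z).1, abs_of_nonneg (h.nonneg z)]
        by_cases hz : R₀ + 1 < ‖z‖
        · rw [hφ₁out z hz, zero_mul, zero_mul]; positivity
        · have h1 : |g z| ≤ Mg := hMg z (by
            rw [Metric.mem_closedBall, dist_zero_right]; exact not_lt.1 hz)
          have h2 : φ₁ z * |g z| ≤ 1 * Mg :=
            mul_le_mul (le_trans (hφ z).2.1 (hφ z).2.2) h1 (abs_nonneg _) zero_le_one
          calc φ₁ z * |g z| * f z ≤ (1 * Mg) * Bf :=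
                mul_le_mul h2 (hBf z) (h.nonneg z) (by positivity)
            _ = Mg * Bf := by ring
      · intro z hz
        show φ₁ z * g z * f z = 0
        rw [hφ₁out z hz, zero_mul, zero_mul]
    have hi2 : Integrable (Q.indicator fun z => g z * f z) := by
      have hmeas : Measurable (fun z => g z * f z) := hg.measurable.mul h.meas
      apply integrable_of_bdd (hmeas.indicator hm) (C := Mg * Bf) (R := R₀)
      · intro z
        by_cases hz : z ∈ Q
        · rw [Set.indicator_of_mem hz, abs_mul, abs_of_nonneg (h.nonneg z)]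
          exact mul_le_mul (hMgQ z hz) (hBf z) (h.nonneg z) hMg0
        · rw [Set.indicator_of_notMem hz, abs_zero]; positivity
      · intro z hz
        rw [Set.indicator_of_notMem]
        intro hzQ
        have := hQ hzQ
        rw [Metric.mem_closedBall, dist_zero_right] at this
        linarith
    rw [← integral_indicator hm, ← integral_sub hi1 hi2, ← Real.norm_eq_abs]
    calc ‖∫ z, (φ₁ z * g z * f z - Q.indicator (fun z => g z * f z) z)‖
        ≤ ∫ z, Mg * Bf * (φ₂ z - φ₁ z) := by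
          apply norm_integral_le_of_norm_le (hdint.const_mul _)
          apply ae_of_all
          intro z
          rw [Real.norm_eq_abs]
          by_cases hz : z ∈ Q
          · rw [Set.indicator_of_mem hz, hφQ z hz]
            have h1 : φ₁ z * g z * f z - g z * f z = -((1 - φ₁ z) * (g z * f z)) := by ring
            rw [h1, abs_neg, abs_mul, abs_of_nonneg (by linarith [(hφ z).2.1, (hφ z).2.2]),
              abs_mul, abs_of_nonneg (h.nonneg z), mul_comm]
            apply mul_le_mul_of_nonneg_right _ (by linarith [(hφ z).2.1, (hφ z).2.2])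
            exact mul_le_mul (hMgQ z hz) (hBf z) (h.nonneg z) hMg0
          · rw [Set.indicator_of_notMem hz, hφQ' z hz]
            rw [zero_mul, zero_mul, sub_zero, abs_zero, sub_zero]
            exact mul_nonneg (mul_nonneg hMg0 hBf0) (le_trans (hφ z).1 (hφ z).2.1)
      _ = Mg * Bf * ∫ z, (φ₂ z - φ₁ z) := integral_const_mul _ _
      _ ≤ Mg * Bf * η := mul_le_mul_of_nonneg_left hint (mul_nonneg hMg0 hBf0)
  rw [Metric.tendsto_nhds] at hW1 hW2
  filter_upwards [hW1 η hη0, hW2 η hη0] with l hl1 hl2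
  rw [Real.dist_eq] at hl1 hl2 ⊢
  have hn := h.pos l
  have hdiff : |(n l)⁻¹ * ∑ b ∈ (A l).filter (fun b => X l b ∈ Q), g (X l b)
      - (n l)⁻¹ * ∑ b ∈ A l, φ₁ (X l b) * g (X l b)| ≤ Mg * ((n l)⁻¹ * ∑ b ∈ A l,
        (φ₂ (X l b) - φ₁ (X l b))) := by
    rw [Finset.sum_filter, ← mul_sub, ← Finset.sum_sub_distrib, abs_mul,
      abs_of_pos (inv_pos.2 hn)]
    have h1 : Mg * ((n l)⁻¹ * ∑ b ∈ A l, (φ₂ (X l b) - φ₁ (X l b)))
        = (n l)⁻¹ * ∑ b ∈ A l, Mg * (φ₂ (X l b) - φ₁ (X l b)) := by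
      rw [← Finset.mul_sum]; ring
    rw [h1]
    apply mul_le_mul_of_nonneg_left _ (inv_pos.2 hn).le
    refine le_trans (Finset.abs_sum_le_sum_abs _ _) (Finset.sum_le_sum ?_)
    intro b _
    by_cases hbQ : X l b ∈ Q
    · rw [if_pos hbQ, hφQ _ hbQ]
      have h2 : g (X l b) - φ₁ (X l b) * g (X l b) = (1 - φ₁ (X l b)) * g (X l b) := by ring
      rw [h2, abs_mul, abs_of_nonneg (by linarith [(hφ (X l b)).2.1, (hφ (X l b)).2.2]), mul_comm]
      exact mul_le_mul_of_nonneg_right (hMgQ _ hbQ)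
        (by linarith [(hφ (X l b)).2.1, (hφ (X l b)).2.2])
    · rw [if_neg hbQ, hφQ' _ hbQ, zero_mul, sub_zero, abs_zero, sub_zero]
      exact mul_nonneg hMg0 (le_trans (hφ (X l b)).1 (hφ (X l b)).2.1)
  have h2 : (n l)⁻¹ * ∑ b ∈ A l, (φ₂ (X l b) - φ₁ (X l b)) ≤ Bf * η + η := by
    rw [abs_lt] at hl2
    linarith [hl2.2]
  have h3 := mul_le_mul_of_nonneg_left h2 hMg0
  have h4 : η * D = 2 * (Mg * Bf * η) + Mg * η + η := by rw [hD]; ring
  have h5 : Mg * (Bf * η + η) = Mg * Bf * η + Mg * η := by ring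
  rw [h5] at h3
  have h6 := abs_sub_le ((n l)⁻¹ * ∑ b ∈ (A l).filter (fun b => X l b ∈ Q), g (X l b))
    ((n l)⁻¹ * ∑ b ∈ A l, φ₁ (X l b) * g (X l b)) (∫ z in Q, g z * f z)
  have h7 := abs_sub_le ((n l)⁻¹ * ∑ b ∈ A l, φ₁ (X l b) * g (X l b))
    (∫ z, φ₁ z * g z * f z) (∫ z in Q, g z * f z)
  have h8 : |(n l)⁻¹ * ∑ b ∈ (A l).filter (fun b => X l b ∈ Q), g (X l b)
      - ∫ z in Q, g z * f z| ≤ 2 * (Mg * Bf * η) + Mg * η + η := by
    have h9 := hdiff.trans h3
    linarith
  rw [← h4] at h8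
  exact lt_of_le_of_lt h8 hηD

/-- joint uniform continuity -/
lemma equi {G : E k → E k → ℝ} (hG : Continuous (fun z : E k × E k => G z.1 z.2)) (r r' : ℝ)
    {ε : ℝ} (hε : 0 < ε) : ∃ η : ℝ, 0 < η ∧ ∀ z z' : E k, ‖z‖ ≤ r → ‖z'‖ ≤ r → dist z z' < η →
      ∀ y : E k, ‖y‖ ≤ r' → |G z y - G z' y| ≤ ε := by
  have hK : IsCompact (Metric.closedBall (0 : E k) r ×ˢ Metric.closedBall (0 : E k) r') :=
    (isCompact_closedBall _ _).prod (isCompact_closedBall _ _)
  have hu := hK.uniformContinuousOn_of_continuous hG.continuousOn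
  rw [Metric.uniformContinuousOn_iff] at hu
  obtain ⟨η, hη, h⟩ := hu ε hε
  refine ⟨η, hη, ?_⟩
  intro z z' hz hz' hd y hy
  have h1 := h (z, y) ⟨by rw [Metric.mem_closedBall, dist_zero_right]; exact hz,
    by rw [Metric.mem_closedBall, dist_zero_right]; exact hy⟩ (z', y)
    ⟨by rw [Metric.mem_closedBall, dist_zero_right]; exact hz',
    by rw [Metric.mem_closedBall, dist_zero_right]; exact hy⟩ (by
      rw [Prod.dist_eq, dist_self, max_eq_left dist_nonneg]; exact hd)
  rw [Real.dist_eq] at h1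
  exact h1.le

/-- the inner integral -/
noncomputable def Hf (G : E k → E k → ℝ) (Q' : Set (E k)) (f : E k → ℝ) (z : E k) : ℝ :=
  ∫ z' in Q', G z z' * f z'

lemma integrable_inner (h : Wk L A X n f) {Q' : Set (E k)} {r' : ℝ}
    (hQ' : Q' ⊆ Metric.closedBall 0 r')
    (hm : MeasurableSet Q') {G : E k → E k → ℝ}
    (hG : Continuous (fun z : E k × E k => G z.1 z.2)) (z : E k) :
    Integrable (fun y => G z y * f y) (volume.restrict Q') := by
  have hGz : Continuous (G z) := by
    have : G z = (fun z : E k × E k => G z.1 z.2) ∘ fun y => (z, y) := rfl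
    rw [this]; exact hG.comp (continuous_const.prodMk continuous_id)
  obtain ⟨C, hC⟩ := (isCompact_closedBall (0 : E k) r').exists_bound_of_continuousOn
    hGz.continuousOn
  have h1 : Integrable (fun y => f y) (volume.restrict Q') := h.integrable.integrableOn
  apply Integrable.bdd_mul (c := C) h1 hGz.aestronglyMeasurable
  rw [ae_restrict_iff' hm]
  apply ae_of_all
  intro y hy
  exact hC y (hQ' hy)

lemma Hf_diff (h : Wk L A X n f) {Q' : Set (E k)} {r' : ℝ} (hQ' : Q' ⊆ Metric.closedBall 0 r')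
    (hm : MeasurableSet Q') {G : E k → E k → ℝ}
    (hG : Continuous (fun z : E k × E k => G z.1 z.2)) {ε : ℝ} (hε : 0 ≤ ε) {z z' : E k}
    (hd : ∀ y : E k, ‖y‖ ≤ r' → |G z y - G z' y| ≤ ε) :
    |Hf G Q' f z - Hf G Q' f z'| ≤ ε := by
  unfold Hf
  rw [← integral_sub (integrable_inner h hQ' hm hG z) (integrable_inner h hQ' hm hG z'),
    ← Real.norm_eq_abs]
  have hf : Integrable f (volume.restrict Q') := h.integrable.integrableOn
  calc ‖∫ y in Q', (G z y * f y - G z' y * f y)‖ ≤ ∫ y in Q', ε * f y := by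
        apply norm_integral_le_of_norm_le (hf.const_mul ε)
        rw [ae_restrict_iff' hm]
        apply ae_of_all
        intro y hy
        have h1 := hQ' hy
        rw [Metric.mem_closedBall, dist_zero_right] at h1
        rw [← sub_mul, Real.norm_eq_abs, abs_mul, abs_of_nonneg (h.nonneg y)]
        exact mul_le_mul_of_nonneg_right (hd y h1) (h.nonneg y)
    _ = ε * ∫ y in Q', f y := integral_const_mul _ _
    _ ≤ ε * 1 := by
        apply mul_le_mul_of_nonneg_left _ hε
        rw [← h.mass]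
        exact setIntegral_le_integral h.integrable (ae_of_all _ h.nonneg)
    _ = ε := mul_one ε

lemma Hf_cont (h : Wk L A X n f) {Q' : Set (E k)} {r' : ℝ} (hQ' : Q' ⊆ Metric.closedBall 0 r')
    (hm : MeasurableSet Q') {G : E k → E k → ℝ}
    (hG : Continuous (fun z : E k × E k => G z.1 z.2)) : Continuous (Hf G Q' f) := by
  rw [Metric.continuous_iff]
  intro z₀ ε hε
  obtain ⟨η, hη, heq⟩ := equi hG (‖z₀‖ + 1) r' (half_pos hε)
  refine ⟨min η 1, lt_min hη one_pos, ?_⟩
  intro z hz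
  rw [Real.dist_eq]
  have hz1 : dist z z₀ < 1 := lt_of_lt_of_le hz (min_le_right _ _)
  have hz2 : ‖z‖ ≤ ‖z₀‖ + 1 := by
    rw [dist_eq_norm] at hz1
    have := norm_add_le z₀ (z - z₀)
    rw [add_sub_cancel] at this
    linarith
  have h1 := Hf_diff h hQ' hm hG (half_pos hε).le
    (heq z z₀ hz2 (by linarith) (lt_of_lt_of_le hz (min_le_left _ _)))
  linarith

open scoped Classical in
lemma unif (h : Wk L A X n f) {Q' : Set (E k)} (hb : Bornology.IsBounded Q')
    (hm : MeasurableSet Q') (h0 : volume (frontier Q') = 0) {G : E k → E k → ℝ}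
    (hG : Continuous (fun z : E k × E k => G z.1 z.2)) (r : ℝ) {ε : ℝ} (hε : 0 < ε) :
    ∀ᶠ l in L, ∀ z : E k, ‖z‖ ≤ r →
      |(n l)⁻¹ * ∑ y ∈ (A l).filter (fun y => X l y ∈ Q'), G z (X l y) - Hf G Q' f z| ≤ ε := by
  obtain ⟨r', hr', hQ'⟩ := exists_ball hb
  have hε3 : 0 < ε / 3 := by linarith
  obtain ⟨η, hη, heq⟩ := equi hG r r' hε3
  obtain ⟨t, ht, htf, hcov⟩ := (isCompact_closedBall (0 : E k) r).finite_cover_balls hη
  have h1 : ∀ᶠ l in L, ∀ z ∈ t,
      |(n l)⁻¹ * ∑ y ∈ (A l).filter (fun y => X l y ∈ Q'), G z (X l y) - Hf G Q' f z| < ε / 3 := by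
    rw [eventually_all_finite htf]
    intro z _
    have hGz : Continuous (G z) := by
      have : G z = (fun z : E k × E k => G z.1 z.2) ∘ fun y => (z, y) := rfl
      rw [this]; exact hG.comp (continuous_const.prodMk continuous_id)
    have h2 := single h hb hm h0 hGz
    rw [Metric.tendsto_nhds] at h2
    exact h2 (ε / 3) hε3
  filter_upwards [h1] with l hl
  intro z hz
  have hzb : z ∈ Metric.closedBall (0 : E k) r := by
    rw [Metric.mem_closedBall, dist_zero_right]; exact hz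
  have h3 := hcov hzb
  rw [Set.mem_iUnion₂] at h3
  obtain ⟨x, hx, hzx⟩ := h3
  rw [Metric.mem_ball] at hzx
  have hxr : ‖x‖ ≤ r := by
    have := ht hx
    rwa [Metric.mem_closedBall, dist_zero_right] at this
  have h4 := heq z x hz hxr hzx
  have h5 := Hf_diff h hQ' hm hG hε3.le h4
  have h6 := hl x hx
  have hn := h.pos l
  have h7 : |(n l)⁻¹ * ∑ y ∈ (A l).filter (fun y => X l y ∈ Q'), G z (X l y)
      - (n l)⁻¹ * ∑ y ∈ (A l).filter (fun y => X l y ∈ Q'), G x (X l y)| ≤ ε / 3 := by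
    rw [← mul_sub, ← Finset.sum_sub_distrib, abs_mul, abs_of_pos (inv_pos.2 hn), inv_mul_eq_div,
      div_le_iff₀ hn]
    refine le_trans (Finset.abs_sum_le_sum_abs _ _) ?_
    refine le_trans (Finset.sum_le_sum (g := fun _ => ε / 3) ?_) ?_
    · intro y hy
      have hyQ := (Finset.mem_filter.1 hy).2
      have h8 := hQ' hyQ
      rw [Metric.mem_closedBall, dist_zero_right] at h8
      exact h4 _ h8
    · rw [Finset.sum_const, nsmul_eq_mul, mul_comm]
      apply mul_le_mul_of_nonneg_left _ hε3.le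
      rw [← h.card l]
      exact_mod_cast Finset.card_filter_le _ _
  rw [abs_lt] at h6
  rw [abs_le] at h5 h7 ⊢
  constructor <;> linarith [h5.1, h5.2, h6.1, h6.2, h7.1, h7.2]

open scoped Classical in
lemma pairs (h : Wk L A X n f) {Q Q' : Set (E k)} (hb : Bornology.IsBounded Q)
    (hm : MeasurableSet Q) (h0 : volume (frontier Q) = 0) (hb' : Bornology.IsBounded Q')
    (hm' : MeasurableSet Q') (h0' : volume (frontier Q') = 0) {G : E k → E k → ℝ}
    (hG : Continuous (fun z : E k × E k => G z.1 z.2)) :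
    Tendsto (fun l => (n l)⁻¹ ^ 2 * ∑ x ∈ (A l).filter (fun x => X l x ∈ Q),
      ∑ y ∈ (A l).filter (fun x => X l x ∈ Q'), G (X l x) (X l y)) L
      (𝓝 (∫ z in Q, ∫ z' in Q', G z z' * (f z * f z'))) := by
  obtain ⟨r, hr, hQ⟩ := exists_ball hb
  obtain ⟨r', hr', hQ'⟩ := exists_ball hb'
  have hH := Hf_cont h hQ' hm' hG
  have h1 := single h hb hm h0 hH
  have h2 : ∫ z in Q, ∫ z' in Q', G z z' * (f z * f z') = ∫ z in Q, Hf G Q' f z * f z := by
    congr 1
    funext z
    unfold Hf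
    rw [← integral_mul_const]
    congr 1
    funext z'
    ring
  rw [h2]
  rw [Metric.tendsto_nhds] at h1 ⊢
  intro ε hε
  filter_upwards [h1 (ε / 2) (half_pos hε), unif h hb' hm' h0' hG r (half_pos hε)] with l hl1 hl2
  rw [Real.dist_eq] at hl1 ⊢
  have hn := h.pos l
  have h3 : (n l)⁻¹ ^ 2 * ∑ x ∈ (A l).filter (fun x => X l x ∈ Q),
      ∑ y ∈ (A l).filter (fun x => X l x ∈ Q'), G (X l x) (X l y)
      = (n l)⁻¹ * ∑ x ∈ (A l).filter (fun x => X l x ∈ Q),
        ((n l)⁻¹ * ∑ y ∈ (A l).filter (fun x => X l x ∈ Q'), G (X l x) (X l y)) := by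
    rw [← Finset.mul_sum]; ring
  rw [h3]
  have h4 : |(n l)⁻¹ * ∑ x ∈ (A l).filter (fun x => X l x ∈ Q),
        ((n l)⁻¹ * ∑ y ∈ (A l).filter (fun x => X l x ∈ Q'), G (X l x) (X l y))
      - (n l)⁻¹ * ∑ x ∈ (A l).filter (fun x => X l x ∈ Q), Hf G Q' f (X l x)| ≤ ε / 2 := by
    rw [← mul_sub, ← Finset.sum_sub_distrib, abs_mul, abs_of_pos (inv_pos.2 hn), inv_mul_eq_div,
      div_le_iff₀ hn]
    refine le_trans (Finset.abs_sum_le_sum_abs _ _) ?_
    refine le_trans (Finset.sum_le_sum (g := fun _ => ε / 2) ?_) ?_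
    · intro x hx
      have h8 := hQ (Finset.mem_filter.1 hx).2
      rw [Metric.mem_closedBall, dist_zero_right] at h8
      exact hl2 _ h8
    · rw [Finset.sum_const, nsmul_eq_mul, mul_comm]
      apply mul_le_mul_of_nonneg_left _ (half_pos hε).le
      rw [← h.card l]
      exact_mod_cast Finset.card_filter_le _ _
  rw [abs_lt] at hl1 ⊢
  rw [abs_le] at h4
  constructor <;> linarith [h4.1, h4.2, hl1.1, hl1.2]

end WKC_

open Data WKC_ in
theorem stmt_WKC : Stmt_WKC := by
  classical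
  intro R _ P S v f φ hlim Q Q' hb hm h0 hb' hm' h0'
  have h : Wk 𝒰 S.A (fun l x => S.X l x v) S.n f :=
    { pos := S.n_pos
      card := fun _ => rfl
      meas := hlim.dens.meas
      nonneg := hlim.dens.nonneg
      bdd := hlim.dens.bdd
      supp := hlim.dens.supp
      mass := hlim.dens.mass
      weak := hlim.weak }
  refine ⟨?_, ?_⟩
  · have h1 := single h hb hm h0 (g := fun _ => (1 : ℝ)) continuous_const
    simp only [one_mul, Finset.sum_const, nsmul_eq_mul, mul_one] at h1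
    refine h1.congr ?_
    intro l
    rw [div_eq_inv_mul]
  · intro G hG
    exact pairs h hb hm h0 hb' hm' h0' hG

end Pool.NS
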